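import Pool.Agent.K6.H86.QS.Max

/-!
# Project QS2 (helper86): groups without virtual homomorphisms to `ℂ`
-/

set_option autoImplicit false

namespace Pool.Agent.K6.H86.QS

open Pool.Agent.N212.SG Pool.Agent.N991.QS

open scoped commutatorElement

/-! ### nilpotent groups -/

theorem finite_commutatorSet {K : Type*} [Group K] (h : (Subgroup.center K).FiniteIndex) :
    Finite (commutatorSet K) := by
  have : Finite (K ⧸ Subgroup.center K) := Subgroup.finite_quotient_of_finiteIndex
  have h1 : commutatorSet K ⊆ Set.range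
      (fun p : (K ⧸ Subgroup.center K) × (K ⧸ Subgroup.center K) => ⁅p.1.out, p.2.out⁆) := by
    rintro _ ⟨a, b, rfl⟩
    refine ⟨((a : K ⧸ Subgroup.center K), (b : K ⧸ Subgroup.center K)), ?_⟩
    have ha : ((a : K ⧸ Subgroup.center K).out)⁻¹ * a ∈ Subgroup.center K := by
      rw [← QuotientGroup.eq]
      exact QuotientGroup.out_eq' _
    have hb : ((b : K ⧸ Subgroup.center K).out)⁻¹ * b ∈ Subgroup.center K := by
      rw [← QuotientGroup.eq]
      exact QuotientGroup.out_eq' _
    obtain ⟨z, hz⟩ : ∃ z, z = ((a : K ⧸ Subgroup.center K).out)⁻¹ * a := ⟨_, rfl⟩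
    obtain ⟨w, hw⟩ : ∃ w, w = ((b : K ⧸ Subgroup.center K).out)⁻¹ * b := ⟨_, rfl⟩
    rw [← hz] at ha
    rw [← hw] at hb
    rw [Subgroup.mem_center_iff] at ha hb
    set a' := ((a : K ⧸ Subgroup.center K).out) with ha'
    set b' := ((b : K ⧸ Subgroup.center K).out) with hb'
    have e1 : a = a' * z := by rw [hz]; group
    have e2 : b = b' * w := by rw [hw]; group
    change ⁅a', b'⁆ = ⁅a, b⁆
    rw [e1, e2, commutatorElement_def, commutatorElement_def]
    have h3 : a' * z * (b' * w) * (a' * z)⁻¹ * (b' * w)⁻¹ =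
        a' * (z * (b' * w)) * (a' * z)⁻¹ * (b' * w)⁻¹ := by group
    rw [h3, ← ha (b' * w)]
    have h4 : a' * (b' * w * z) * (a' * z)⁻¹ * (b' * w)⁻¹ =
        a' * b' * w * a'⁻¹ * w⁻¹ * b'⁻¹ := by group
    rw [h4]
    have h5 : a' * b' * w * a'⁻¹ * w⁻¹ * b'⁻¹ = a' * b' * (w * a'⁻¹) * w⁻¹ * b'⁻¹ := by group
    rw [h5, ← hb a'⁻¹]
    group
  exact ((Set.finite_range _).subset h1).to_subtype

/-- A finitely generated nilpotent group without homomorphisms to `ℂ` is finite. -/
theorem finite_of_nilpotent (hfab : S_FAB) (K : Type) [Group K] [Group.IsNilpotent K] :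
    Group.FG K → (∀ f : H1 K, f = 0) → Finite K := by
  refine Group.nilpotent_center_quotient_ind (P := fun K _ _ =>
    Group.FG K → (∀ f : H1 K, f = 0) → Finite K) K ?_ ?_
  · intro K _ _ _ _
    infer_instance
  · intro K _ _ ih hfg h
    have h1 : Finite (K ⧸ Subgroup.center K) := by
      refine ih (QuotientGroup.fg _) fun f => ?_
      have h2 := h (f.comp (MonoidHom.toAdditive (QuotientGroup.mk' (Subgroup.center K))))
      refine AddMonoidHom.ext fun x => ?_
      obtain ⟨y, hy⟩ := QuotientGroup.mk'_surjective (Subgroup.center K) (Additive.toMul x)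
      have h3 := DFunLike.congr_fun h2 (Additive.ofMul y)
      change f (Additive.ofMul (QuotientGroup.mk' _ y)) = 0 at h3
      rw [hy] at h3
      exact h3
    have h2 : (Subgroup.center K).FiniteIndex := Subgroup.finiteIndex_of_finite_quotient
    have h3 := finite_commutatorSet h2
    have h4 : Finite (commutator K) := inferInstance
    have h5 : (commutator K).FiniteIndex := by
      refine hfab K (commutator K) hfg (fun a b => ?_) (fun f _ => h f)
      exact Subgroup.commutator_mem_commutator (Subgroup.mem_top a) (Subgroup.mem_top b)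
    have h6 : Finite (K ⧸ commutator K) := Subgroup.finite_quotient_of_finiteIndex
    exact Finite.of_equiv _ (Subgroup.groupEquivQuotientProdSubgroup (s := commutator K)).symm

/-! ### finite index -/

theorem FAb.zero {K : Type} [Group K] (h : FAb K) (f : H1 K) : f = 0 := by
  have h1 := h ⊤ inferInstance (f.comp (MonoidHom.toAdditive (⊤ : Subgroup K).subtype))
  refine AddMonoidHom.ext fun x => ?_
  exact DFunLike.congr_fun h1 (Additive.ofMul (⟨Additive.toMul x, Subgroup.mem_top _⟩ :
    (⊤ : Subgroup K)))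

theorem FAb.equiv {K K' : Type} [Group K] [Group K'] (e : K ≃* K') (h : FAb K) : FAb K' := by
  intro L hL f
  let L1 : Subgroup K := L.comap e.toMonoidHom
  have hL1 : L1.FiniteIndex := by
    rw [Subgroup.finiteIndex_iff]
    change (L.comap e.toMonoidHom).index ≠ 0
    rw [Subgroup.index_comap_of_surjective L e.surjective]
    exact hL.index_ne_zero
  let ψ : L1 →* L :=
    { toFun := fun x => ⟨e x, x.2⟩
      map_one' := Subtype.ext (map_one e)
      map_mul' := fun x y => Subtype.ext (map_mul e x.1 y.1) }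
  have h0 := h L1 hL1 (f.comp (MonoidHom.toAdditive ψ))
  have h0' : ∀ z : L1, f (Additive.ofMul (ψ z)) = 0 := fun z =>
    DFunLike.congr_fun h0 (Additive.ofMul z)
  refine AddMonoidHom.ext fun x => ?_
  have hx : e (e.symm ((Additive.toMul x : L) : K')) = (Additive.toMul x : L) :=
    e.apply_symm_apply _
  have hx2 : e.symm ((Additive.toMul x : L) : K') ∈ L1 := by
    change e (e.symm ((Additive.toMul x : L) : K')) ∈ L
    rw [hx]
    exact (Additive.toMul x : L).2
  have h2 : ψ ⟨e.symm ((Additive.toMul x : L) : K'), hx2⟩ = Additive.toMul x := Subtype.ext hx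
  have h1 := h0' ⟨e.symm ((Additive.toMul x : L) : K'), hx2⟩
  rw [h2] at h1
  exact h1

theorem FAb.sub {K : Type} [Group K] {K' : Subgroup K} (h : FAb K) (hK : K'.FiniteIndex) :
    FAb K' := by
  intro L hL f
  have h1 := h (L.map K'.subtype) (map_finiteIndex hK hL)
    ((h1Equiv (L.equivMapOfInjective K'.subtype K'.subtype_injective)).symm f)
  have h2 := congrArg (h1Equiv (L.equivMapOfInjective K'.subtype K'.subtype_injective)) h1
  rwa [LinearEquiv.apply_symm_apply, map_zero] at h2

theorem FAb.of_sub {K : Type} [Group K] {K' : Subgroup K} (hK : K'.FiniteIndex)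
    (h : FAb K') : FAb K := by
  intro L hL f
  have h1 : (L.subgroupOf K').FiniteIndex := inferInstance
  let ι : (L.subgroupOf K') →* L :=
    { toFun := fun x => ⟨((x : K') : K), x.2⟩
      map_one' := rfl
      map_mul' := fun _ _ => rfl }
  have h2 := h _ h1 (f.comp (MonoidHom.toAdditive ι))
  have h2' : ∀ z : (L.subgroupOf K'), f (Additive.ofMul (ι z)) = 0 := fun z =>
    DFunLike.congr_fun h2 (Additive.ofMul z)
  refine AddMonoidHom.ext fun y => ?_
  obtain ⟨n, hn, -, hy⟩ := Subgroup.exists_pow_mem_of_index_ne_zero hK.index_ne_zero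
    ((Additive.toMul y : L) : K)
  have hy2 : (⟨_, hy⟩ : K') ∈ L.subgroupOf K' := L.pow_mem (Additive.toMul y : L).2 n
  have h3 := h2' ⟨⟨_, hy⟩, hy2⟩
  have h4 : ι ⟨⟨_, hy⟩, hy2⟩ = (Additive.toMul y : L) ^ n := rfl
  rw [h4, ofMul_pow, map_nsmul, nsmul_eq_mul] at h3
  rcases mul_eq_zero.1 h3 with h5 | h5
  · exact absurd (by exact_mod_cast h5) (show n ≠ 0 by omega)
  · exact h5

theorem FAb.range {K N : Type} [Group K] [Group N] (h : FAb K) (f : K →* N) :
    ∀ g : H1 f.range, g = 0 := by
  intro g
  have h1 := h.zero (g.comp (MonoidHom.toAdditive f.rangeRestrict))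
  refine AddMonoidHom.ext fun x => ?_
  obtain ⟨y, hy⟩ := f.rangeRestrict_surjective (Additive.toMul x)
  have h2 := DFunLike.congr_fun h1 (Additive.ofMul y)
  change g (Additive.ofMul (f.rangeRestrict y)) = 0 at h2
  rw [hy] at h2
  exact h2

theorem finiteIndex_ker_of_range {K N : Type*} [Group K] [Group N] (f : K →* N)
    (h : Finite f.range) : f.ker.FiniteIndex := Subgroup.finiteIndex_ker f

theorem comap_fi {K N : Type*} [Group K] [Group N] (f : K →* N) {A : Subgroup N}
    (hA : A.FiniteIndex) : (A.comap f).FiniteIndex := by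
  rw [Subgroup.finiteIndex_iff, Subgroup.index_comap]
  have h1 : (A.subgroupOf f.range).FiniteIndex := inferInstance
  exact h1.index_ne_zero

theorem FAb.ker_nil (hfab : S_FAB) {K N : Type} [Group K] [Group N] (h : FAb K)
    (hK : Group.FG K) (f : K →* N) (hN : Group.IsNilpotent N) : f.ker.FiniteIndex := by
  have h1 : Finite f.range := finite_of_nilpotent hfab f.range
    (Group.fg_of_surjective f.rangeRestrict_surjective) (h.range f)
  exact finiteIndex_ker_of_range f h1

theorem FAb.ker_vnil (hfab : S_FAB) {K N : Type} [Group K] [Group N] (h : FAb K)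
    (hK : Group.FG K) (f : K →* N) (hN : VirtNilpotent N) : f.ker.FiniteIndex := by
  obtain ⟨A, hA, hAn⟩ := hN
  have h1 : (A.comap f).FiniteIndex := comap_fi f hA
  let g : (A.comap f) →* A :=
    { toFun := fun x => ⟨f x, x.2⟩
      map_one' := Subtype.ext (map_one f)
      map_mul' := fun x y => Subtype.ext (map_mul f x.1 y.1) }
  have h2 : g.ker.FiniteIndex := (h.sub h1).ker_nil hfab (Subgroup.fg_of_index_ne_zero _) g hAn
  have h3 := map_finiteIndex h1 h2
  have h4 : g.ker.map (A.comap f).subtype ≤ f.ker := by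
    rintro _ ⟨x, hx, rfl⟩
    exact congrArg Subtype.val (show g x = 1 from hx)
  exact Subgroup.finiteIndex_of_le h4

end Pool.Agent.K6.H86.QS
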