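import Pool.Agent.K6.H86.QS.Fin

/-!
# Project QS2 (helper86): classes of tame groups
-/

set_option autoImplicit false

namespace Pool.Agent.K6.H86.QS

open Pool.Agent.N212.SG Pool.Agent.N991.QS

/-- A subgroup of finite index has a nonzero homomorphism to `ℂ`. -/
def VI (S : Type) [Group S] : Prop := ∃ L : Subgroup S, L.FiniteIndex ∧ ∃ f : H1 L, f ≠ 0

theorem VI.of_sub {S : Type} [Group S] {M : Subgroup S} (hM : M.FiniteIndex) (h : VI M) :
    VI S := by
  obtain ⟨L, hL, f, hf⟩ := h
  refine ⟨L.map M.subtype, map_finiteIndex hM hL,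
    (h1Equiv (L.equivMapOfInjective M.subtype M.subtype_injective)).symm f, fun h0 => hf ?_⟩
  have h2 := congrArg (h1Equiv (L.equivMapOfInjective M.subtype M.subtype_injective)) h0
  rwa [LinearEquiv.apply_symm_apply, map_zero] at h2

theorem VI.of_surj {S S' : Type} [Group S] [Group S'] (g : S →* S')
    (hg : Function.Surjective g) (h : VI S') : VI S := by
  obtain ⟨L, hL, k, hk⟩ := h
  let e : (L.comap g) →* L :=
    { toFun := fun x => ⟨g x, x.2⟩
      map_one' := Subtype.ext (map_one g)
      map_mul' := fun x y => Subtype.ext (map_mul g x.1 y.1) }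
  refine ⟨L.comap g, comap_fi g hL, k.comp (MonoidHom.toAdditive e), fun h1 => hk ?_⟩
  have h1' : ∀ z : L.comap g, k (Additive.ofMul (e z)) = 0 := fun z =>
    DFunLike.congr_fun h1 (Additive.ofMul z)
  refine AddMonoidHom.ext fun x => ?_
  obtain ⟨y, hy⟩ := hg (Additive.toMul x : L)
  have hy2 : y ∈ L.comap g := by
    rw [Subgroup.mem_comap, hy]
    exact (Additive.toMul x : L).2
  have h2 := h1' ⟨y, hy2⟩
  have h3 : e ⟨y, hy2⟩ = (Additive.toMul x : L) := Subtype.ext hy
  rw [h3] at h2
  exact h2

/-- The infinite finitely generated quotients of subgroups of `E`. -/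
def Sec (E : Type) [Group E] : Prop :=
  ∀ (T : Subgroup E) (S : Type) [Group S] (p : T →* S), Function.Surjective p → Group.FG S →
    Infinite S → VI S

theorem sec_of_elemAmenable (hfab : S_FAB) (E : Type) [Group E] (hE : ElemAmenable.{0} E) :
    Sec E := by
  induction hE with
  | finite E hE =>
    intro T S _ p hp _ hinf
    exact absurd (Finite.of_surjective p hp) (not_finite_iff_infinite.2 hinf)
  | comm E hE =>
    intro T S _ p hp hfg hinf
    have hc : ∀ a b : S, a * b = b * a := by
      intro a b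
      obtain ⟨x, rfl⟩ := hp a
      obtain ⟨y, rfl⟩ := hp b
      rw [← map_mul, ← map_mul]
      congr 1
      exact Subtype.ext (hE x y)
    by_contra hcon
    have h1 : (⊥ : Subgroup S).FiniteIndex := by
      refine hfab S ⊥ hfg (fun a b => ?_) fun f _ => ?_
      · rw [hc a b]
        simp
      · by_contra hf
        apply hcon
        refine ⟨⊤, inferInstance, f.comp (MonoidHom.toAdditive (⊤ : Subgroup S).subtype),
          fun h0 => hf ?_⟩
        refine AddMonoidHom.ext fun x => ?_
        exact DFunLike.congr_fun h0 (Additive.ofMul (⟨Additive.toMul x, Subgroup.mem_top _⟩ :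
          (⊤ : Subgroup S)))
    have h2 : Finite (S ⧸ (⊥ : Subgroup S)) := Subgroup.finite_quotient_of_finiteIndex
    have h3 : Finite S := Finite.of_equiv _ (QuotientGroup.quotientBot (G := S)).toEquiv
    exact (not_finite_iff_infinite.2 hinf) h3
  | sub E E' f hf _ ih =>
    intro T S _ p hp hfg hinf
    let e := T.equivMapOfInjective f hf
    exact ih (T.map f) S (p.comp e.symm.toMonoidHom) (hp.comp e.symm.surjective) hfg hinf
  | quot E E' f hf _ ih =>
    intro T S _ p hp hfg hinf
    let e : (T.comap f) →* T :=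
      { toFun := fun x => ⟨f x, x.2⟩
        map_one' := Subtype.ext (map_one f)
        map_mul' := fun x y => Subtype.ext (map_mul f x.1 y.1) }
    refine ih (T.comap f) S (p.comp e) (hp.comp ?_) hfg hinf
    rintro ⟨y, hy⟩
    obtain ⟨x, rfl⟩ := hf y
    exact ⟨⟨x, hy⟩, rfl⟩
  | ext E N hN1 hN2 ih1 ih2 =>
    intro T S _ p hp hfg hinf
    -- the image of `T ∩ N`
    let M : Subgroup S := (N.subgroupOf T).map p
    have hM : M.Normal := Subgroup.Normal.map inferInstance p hp
    by_cases hfin : Finite (S ⧸ M)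
    · have hMfi : M.FiniteIndex := Subgroup.finiteIndex_of_finite_quotient
      refine VI.of_sub hMfi ?_
      have hMfg : Group.FG M := Subgroup.fg_of_index_ne_zero M
      have hMinf : Infinite M := by
        rw [← not_finite_iff_infinite]
        intro h0
        have h1 : Finite S := Finite.of_equiv _ (Subgroup.groupEquivQuotientProdSubgroup
          (s := M)).symm
        exact (not_finite_iff_infinite.2 hinf) h1
      let e : (T.subgroupOf N) →* M :=
        { toFun := fun x => ⟨p ⟨((x : N) : E), x.2⟩, ⟨⟨((x : N) : E), x.2⟩, (x : N).2, rfl⟩⟩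
          map_one' := Subtype.ext (map_one p)
          map_mul' := fun x y => Subtype.ext (map_mul p ⟨((x : N) : E), x.2⟩
            ⟨((y : N) : E), y.2⟩) }
      refine ih1 (T.subgroupOf N) M e ?_ hMfg hMinf
      rintro ⟨_, ⟨x, hx, rfl⟩⟩
      exact ⟨⟨⟨x, hx⟩, x.2⟩, rfl⟩
    · rw [not_finite_iff_infinite] at hfin
      refine VI.of_surj (QuotientGroup.mk' M) (QuotientGroup.mk'_surjective M) ?_
      have hle : (N.subgroupOf T) ≤ M.comap p := Subgroup.le_comap_map p _
      -- `T / (T ∩ N)` is a subgroup of `E / N`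
      let T' : Subgroup (E ⧸ N) := T.map (QuotientGroup.mk' N)
      let q : T →* T' :=
        { toFun := fun x => ⟨QuotientGroup.mk' N x, ⟨x, x.2, rfl⟩⟩
          map_one' := Subtype.ext (map_one _)
          map_mul' := fun x y => Subtype.ext (map_mul (QuotientGroup.mk' N) x.1 y.1) }
      have hq : Function.Surjective q := by
        rintro ⟨_, ⟨x, hx, rfl⟩⟩
        exact ⟨⟨x, hx⟩, rfl⟩
      let r : T →* S ⧸ M := (QuotientGroup.mk' M).comp p
      have hker : q.ker ≤ r.ker := by
        intro x hx
        have h1 : QuotientGroup.mk' N (x : E) = 1 := congrArg Subtype.val (show q x = 1 from hx)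
        have h2 : (x : E) ∈ N := (QuotientGroup.eq_one_iff _).1 h1
        rw [MonoidHom.mem_ker]
        exact (QuotientGroup.eq_one_iff _).2 ⟨x, h2, rfl⟩
      let l : T' →* S ⧸ M := q.liftOfSurjective hq ⟨r, hker⟩
      have hl : Function.Surjective l := by
        intro z
        obtain ⟨s, rfl⟩ := QuotientGroup.mk'_surjective M z
        obtain ⟨x, rfl⟩ := hp s
        refine ⟨q x, ?_⟩
        exact MonoidHom.liftOfRightInverse_comp_apply q _ _ ⟨r, hker⟩ x
      exact ih2 T' (S ⧸ M) l hl (QuotientGroup.fg M) hfin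
  | union E 𝒮 hdir hcov hmem ih =>
    intro T S _ p hp hfg hinf
    obtain ⟨s, hs⟩ := hfg
    choose e he using hp
    have key : ∀ t : Finset S, ∃ H ∈ 𝒮, ∀ d ∈ t, ((e d : T) : E) ∈ H := by
      intro t
      classical
      induction t using Finset.induction_on with
      | empty =>
        obtain ⟨H, hH, _⟩ := hcov 1
        exact ⟨H, hH, fun d hd => absurd hd (Finset.notMem_empty d)⟩
      | insert a t _ ih =>
        obtain ⟨H, hH, h2⟩ := ih
        obtain ⟨H', hH', h3⟩ := hcov (e a)
        obtain ⟨K, hK, h4, h5⟩ := hdir H hH H' hH'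
        refine ⟨K, hK, fun d hd => ?_⟩
        rcases Finset.mem_insert.1 hd with rfl | hd
        · exact h5 h3
        · exact h4 (h2 d hd)
    obtain ⟨H, hH, h2⟩ := key s
    let j : (T.subgroupOf H) →* T :=
      { toFun := fun x => ⟨((x : H) : E), x.2⟩
        map_one' := rfl
        map_mul' := fun _ _ => rfl }
    refine ih H hH (T.subgroupOf H) S (p.comp j) ?_ ⟨s, hs⟩ hinf
    have h3 : (⊤ : Subgroup S) ≤ (p.comp j).range := by
      rw [← hs, Subgroup.closure_le]
      intro x hx
      refine ⟨⟨⟨(e x : T), h2 x hx⟩, (e x).2⟩, ?_⟩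
      exact he x
    intro x
    exact h3 (Subgroup.mem_top x)

/-- Elementary amenable groups are tame. -/
theorem tame_ea (hfab : S_FAB) (Q : Type) [Group Q] (hQ : ElemAmenable.{0} Q) : Tame Q := by
  intro S hS hinf
  exact Or.inl (sec_of_elemAmenable hfab Q hQ S S (MonoidHom.id S) Function.surjective_id
    ((Group.fg_iff_subgroup_fg S).2 hS) hinf)

/-- Groups with a representation of a subgroup of finite index with a locally indicable
kernel. -/
theorem tame_lin (Q : Type) [Group Q] (Q' : Subgroup Q) (hQ' : Q'.FiniteIndex) (n : ℕ)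
    (ρ : Q' →* GL (Fin n) ℂ) (hρ : LocallyIndicable ρ.ker) : Tame Q := by
  intro S hS hinf
  by_cases h : Infinite ((S.subgroupOf Q').map ρ)
  · exact Or.inr ⟨Q', hQ', n, ρ, h⟩
  rw [not_infinite_iff_finite] at h
  left
  have hSfg : Group.FG S := (Group.fg_iff_subgroup_fg S).2 hS
  -- the kernel
  let i : (Q'.subgroupOf S) →* Q' :=
    { toFun := fun x => ⟨((x : S) : Q), x.2⟩
      map_one' := rfl
      map_mul' := fun _ _ => rfl }
  have h1 : (Q'.subgroupOf S).FiniteIndex := inferInstance
  have h2 : Finite (ρ.comp i).range := by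
    have h3 : ((ρ.comp i).range : Set (GL (Fin n) ℂ)) ⊆ ((S.subgroupOf Q').map ρ :
        Set (GL (Fin n) ℂ)) := by
      rintro _ ⟨x, rfl⟩
      exact ⟨i x, (x : S).2, rfl⟩
    have h4 : ((S.subgroupOf Q').map ρ : Set (GL (Fin n) ℂ)).Finite := Set.finite_coe_iff.1 h
    exact (h4.subset h3).to_subtype
  have h3 : (ρ.comp i).ker.FiniteIndex := finiteIndex_ker_of_range _ h2
  have h4 : ((ρ.comp i).ker.map (Q'.subgroupOf S).subtype).FiniteIndex := map_finiteIndex h1 h3
  set M : Subgroup S := (ρ.comp i).ker.map (Q'.subgroupOf S).subtype with hM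
  have hMfg : Group.FG M := Subgroup.fg_of_index_ne_zero M
  have hMinf : Infinite M := by
    rw [← not_finite_iff_infinite]
    intro h0
    have h6 : Finite (S ⧸ M) := Subgroup.finite_quotient_of_finiteIndex
    have h5 : Finite S := Finite.of_equiv _ (Subgroup.groupEquivQuotientProdSubgroup
      (s := M)).symm
    exact (not_finite_iff_infinite.2 hinf) h5
  have hMmem : ∀ x : M, ∃ hx : (((x : S) : Q) ∈ Q'), (⟨((x : S) : Q), hx⟩ : Q') ∈ ρ.ker := by
    rintro ⟨x, ⟨y, hy, rfl⟩⟩
    exact ⟨y.2, hy⟩
  let w : M →* ρ.ker :=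
    { toFun := fun x => ⟨⟨((x : S) : Q), (hMmem x).1⟩, (hMmem x).2⟩
      map_one' := rfl
      map_mul' := fun _ _ => rfl }
  have hw : Function.Injective w := by
    intro x y hxy
    apply Subtype.ext
    apply Subtype.ext
    exact congrArg (fun z : ρ.ker => ((z : Q') : Q)) hxy
  obtain ⟨f, hf⟩ := hρ w.range ((Group.fg_iff_subgroup_fg _).1
    (Group.fg_of_surjective w.rangeRestrict_surjective)) (by
    intro h0
    have h5 : Finite w.range := by
      rw [h0]
      infer_instance
    have h6 : Finite M := Finite.of_injective w.rangeRestrict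
      (fun x y hxy => hw (congrArg Subtype.val hxy))
    exact (not_finite_iff_infinite.2 hMinf) h6)
  refine ⟨M, h4, f.comp (MonoidHom.toAdditive w.rangeRestrict), fun h0 => hf ?_⟩
  refine AddMonoidHom.ext fun x => ?_
  obtain ⟨y, hy⟩ := w.rangeRestrict_surjective (Additive.toMul x)
  have h5 := DFunLike.congr_fun h0 (Additive.ofMul y)
  change f (Additive.ofMul (w.rangeRestrict y)) = 0 at h5
  rw [hy] at h5
  exact h5

end Pool.Agent.K6.H86.QS
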