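import Pool.Agent.K6.H86.QS.FAb

/-!
# Project QS2 (helper86): conclusions
-/

set_option autoImplicit false

namespace Pool.Agent.K6.H86.QS

open Pool.Agent.N212.SG Pool.Agent.N991.QS

open scoped commutatorElement

theorem wit_map {G : Type} [Group G] {H : Subgroup G} (hH : H.FiniteIndex) {A D : Subgroup H}
    (hw : Wit A D) : Wit (A.map H.subtype) (D.map H.subtype) where
  fin := map_finiteIndex hH hw.fin
  le := Subgroup.map_mono hw.le
  norm := by
    rintro _ ⟨a, ha, rfl⟩ _ ⟨d, hd, rfl⟩
    exact ⟨a * d * a⁻¹, hw.norm a ha d hd, rfl⟩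
  nil := by
    obtain ⟨c, hc⟩ := hw.nil
    refine ⟨c, ?_⟩
    rw [← Subgroup.map_lowerCentralSeries]
    exact Subgroup.map_mono hc

theorem isST_sub {G : Type} [Group G] (hG : IsSpecialTypeGroup G) {H : Subgroup G}
    (hH : H.FiniteIndex) : IsSpecialTypeGroup H where
  qs := isQS_sub hG.qs hH
  nil A N hw x hx := by
    obtain ⟨n, hn, h1⟩ := hG.nil _ _ (wit_map hH hw) x (by
      rw [← Subgroup.map_lowerCentralSeries]
      exact ⟨x, hx, rfl⟩)
    refine ⟨n, hn, ?_⟩
    obtain ⟨y, hy, hyx⟩ := h1
    have h2 : y = x ^ n := Subtype.ext hyx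
    exact h2 ▸ hy

variable (hfgz : S_FGZ) (heign : S_EIGN) (hcoc : Pool.Agent.N991.QS.S_COC) (haff : S_AFF)
  (hfinn : S_FINN) (hintg : S_INTG) (hfab : S_FAB) (hnoe : S_NOE)

section

include hfgz heign hcoc haff hfinn hintg

theorem exists_wit {G : Type} [Group G] (hG : IsSpecialTypeGroup G) :
    ∃ H D : Subgroup G, Wit H D ∧ D.FG ∧ FAb D := by
  obtain ⟨G', hG', hm⟩ := exists_max hG.qs
  obtain ⟨H, D, hw, hDfg, hD⟩ := exists_fab hfgz heign hcoc haff hfinn hintg (isST_sub hG hG') hm
  refine ⟨_, _, wit_map hG' hw, fg_map _ hDfg, ?_⟩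
  exact hD.equiv (D.equivMapOfInjective G'.subtype G'.subtype_injective)

end

variable {G : Type} [Group G]

theorem lcs_wit {H : Subgroup G} (hH : H.FiniteIndex) (c : ℕ) :
    Wit H (H.lowerCentralSeries c) where
  fin := hH
  le := Subgroup.lowerCentralSeries_le_self H c
  norm h hh d hd := by
    have h1 := Subgroup.self_le_normalizer_lowerCentralSeries (S := H) c hh
    rw [Subgroup.mem_normalizer_iff] at h1
    exact (h1 d).1 hd
  nil := ⟨c, le_rfl⟩

/-- The quotient map. -/
theorem nil_quot {K N : Subgroup G} [(N.subgroupOf K).Normal] (h : ∃ c, K.lowerCentralSeries c ≤ N) :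
    Group.IsNilpotent (K ⧸ N.subgroupOf K) := by
  obtain ⟨c, hc⟩ := h
  rw [Subgroup.nilpotent_iff_lowerCentralSeries]
  refine ⟨c, ?_⟩
  have h1 := top_lcs_le hc
  rw [eq_bot_iff]
  have h2 : (⊤ : Subgroup (K ⧸ N.subgroupOf K)) =
      (⊤ : Subgroup K).map (QuotientGroup.mk' (N.subgroupOf K)) := by
    rw [Subgroup.map_top_of_surjective _ (QuotientGroup.mk'_surjective _)]
  rw [h2, ← Subgroup.map_lowerCentralSeries]
  rintro _ ⟨x, hx, rfl⟩
  rw [Subgroup.mem_bot]
  exact (QuotientGroup.eq_one_iff x).2 (h1 hx)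

include hfab hnoe in
/-- The terms of the lower central series of small subgroups of finite index. -/
theorem gamma (hG : IsSpecialTypeGroup G) {H D K : Subgroup G} (hw : Wit H D) (hDfg : D.FG)
    (hD : FAb D) (hKH : K ≤ H) (hK : K.FiniteIndex) :
    (K.lowerCentralSeries 2).FG ∧ FAb (K.lowerCentralSeries 2) := by
  have hfg := hG.qs.fg
  have hKfg : Group.FG K := Subgroup.fg_of_index_ne_zero K
  obtain ⟨c0, hc0⟩ := hw.nil
  obtain ⟨c, hc, hc2⟩ : ∃ c, H.lowerCentralSeries c ≤ D ∧ 2 ≤ c :=
    ⟨c0 + 2, (Subgroup.lowerCentralSeries_antitone (S := H) (by omega)).trans hc0, by omega⟩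
  set L : Subgroup G := K.lowerCentralSeries c with hL
  have hwL : Wit K L := lcs_wit hK c
  have hLD : L ≤ D := (lcs_mono hKH c).trans hc
  have hLn : (L.subgroupOf K).Normal := ⟨fun x hx h => hwL.norm h h.2 x hx⟩
  have hnil : Group.IsNilpotent (K ⧸ L.subgroupOf K) := nil_quot hwL.nil
  have hDfg' : Group.FG D := (Group.fg_iff_subgroup_fg D).2 hDfg
  have hD₀ : (K.subgroupOf D).FiniteIndex := inferInstance
  -- the subgroup `L` has finite index in `D`
  let q : (K.subgroupOf D) →* K ⧸ L.subgroupOf K := (QuotientGroup.mk' (L.subgroupOf K)).comp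
    { toFun := fun x => ⟨((x : D) : G), x.2⟩
      map_one' := rfl
      map_mul' := fun _ _ => rfl }
  have hq : q.ker.FiniteIndex := (hD.sub hD₀).ker_nil hfab (Subgroup.fg_of_index_ne_zero _) q hnil
  have hLfi : (L.subgroupOf D).FiniteIndex := by
    have h1 := map_finiteIndex hD₀ hq
    have h2 : q.ker.map (K.subgroupOf D).subtype ≤ L.subgroupOf D := by
      rintro _ ⟨x, hx, rfl⟩
      have h3 : q x = 1 := hx
      have h4 : (⟨((x : D) : G), x.2⟩ : K) ∈ L.subgroupOf K := (QuotientGroup.eq_one_iff _).1 h3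
      exact h4
    exact Subgroup.finiteIndex_of_le h2
  have hLF : FAb L := (hD.sub hLfi).equiv (Subgroup.subgroupOfEquivOfLe hLD)
  have hLfg : L.FG := by
    have h1 : Group.FG (L.subgroupOf D) := Subgroup.fg_of_index_ne_zero _
    exact fg_of_subgroupOf hLD ((Group.fg_iff_subgroup_fg _).1 h1)
  -- the subgroup `T`
  set T : Subgroup G := K.lowerCentralSeries 2 with hT
  have hLT : L ≤ T := Subgroup.lowerCentralSeries_antitone (S := K) hc2
  have hTK : T ≤ K := Subgroup.lowerCentralSeries_le_self K 2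
  have hTfg : T.FG := by
    refine fg_of_subgroupOf hTK ?_
    exact hnoe K (L.subgroupOf K) (T.subgroupOf K) hKfg (subgroupOf_fg hwL.le hLfg)
      (fun x hx => hLT hx) (fun h d hd => hwL.norm h h.2 d hd) ⟨c, top_lcs_le le_rfl⟩
  have hTfg' : Group.FG T := (Group.fg_iff_subgroup_fg T).2 hTfg
  refine ⟨hTfg, ?_⟩
  -- the quotient `T / L` is finite
  have hLTn : (L.subgroupOf T).Normal := ⟨fun x hx h => hwL.norm h (hTK h.2) x hx⟩
  have hnil2 : Group.IsNilpotent (T ⧸ L.subgroupOf T) :=
    nil_quot ⟨c, lcs_mono hTK c⟩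
  have hfin : Finite (T ⧸ L.subgroupOf T) := by
    refine finite_of_nilpotent hfab _ (QuotientGroup.fg _) fun f => ?_
    refine AddMonoidHom.ext fun x => ?_
    obtain ⟨y, hy⟩ := QuotientGroup.mk'_surjective (L.subgroupOf T) (Additive.toMul x)
    obtain ⟨n, hn, h1⟩ := hG.nil K L hwL y y.2
    have h2 : ((y ^ n : T) : T ⧸ L.subgroupOf T) = 1 := (QuotientGroup.eq_one_iff _).2 h1
    have h3 : n • x = 0 := by
      have h4 : (Additive.toMul x) ^ n = 1 := by
        rw [← hy]
        exact h2
      exact h4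
    have h5 : n • f x = 0 := by
      rw [← map_nsmul, h3, map_zero]
    rw [nsmul_eq_mul] at h5
    rcases mul_eq_zero.1 h5 with h6 | h6
    · exact absurd (by exact_mod_cast h6) hn
    · exact h6
  have hfi2 : (L.subgroupOf T).FiniteIndex := Subgroup.finiteIndex_of_finite_quotient
  exact FAb.of_sub hfi2 (hLF.equiv (Subgroup.subgroupOfEquivOfLe hLT).symm)

include hfab in
theorem finite_of_fab {T : Subgroup G} (hT : T.FG) (hF : FAb T) (hG : VirtNilpotent G) :
    Finite T := by
  have hfg : Group.FG T := (Group.fg_iff_subgroup_fg T).2 hT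
  have h1 := hF.ker_vnil hfab hfg T.subtype hG
  rw [Subgroup.ker_subtype] at h1
  have h2 : Finite (T ⧸ (⊥ : Subgroup T)) := Subgroup.finite_quotient_of_finiteIndex
  exact Finite.of_equiv _ (QuotientGroup.quotientBot (G := T)).toEquiv

include hfinn in
theorem virtNil_of_finite {K : Subgroup G} (hK : K.FiniteIndex)
    (h : Finite (K.lowerCentralSeries 2)) : VirtNilpotent G := by
  obtain ⟨A, hAK, hA⟩ := finn hfinn (lcs_wit hK 2) (bot_le (a := K.lowerCentralSeries 2))
    (by infer_instance) (fun h _ d hd => by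
      rw [Subgroup.mem_bot.1 hd]
      simp)
  obtain ⟨c, hc⟩ := hA.nil
  refine ⟨A, hA.fin, ?_⟩
  rw [Subgroup.isNilpotent_iff_lowerCentralSeries]
  exact ⟨c, le_bot_iff.1 hc⟩

/-- If `γ₂` is finitely generated and `γ₃` is finite, then the centralizer of `γ₂` has finite
index. -/
theorem two (K : Type) [Group K] (h2 : (commutator K).FG)
    (h3 : Finite ((⊤ : Subgroup K).lowerCentralSeries 2)) : VirtTwo K := by
  obtain ⟨s, hs⟩ := h2
  have hcent : ∀ u ∈ commutator K, (Subgroup.centralizer {u}).FiniteIndex := by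
    intro u hu
    have hmem : ∀ k : K, k * u * k⁻¹ * u⁻¹ ∈ (⊤ : Subgroup K).lowerCentralSeries 2 := by
      intro k
      have h4 : ⁅u, k⁆ ∈ (⊤ : Subgroup K).lowerCentralSeries 2 :=
        Subgroup.commutator_mem_commutator (H₁ := (⊤ : Subgroup K).lowerCentralSeries 1) hu
          (Subgroup.mem_top k)
      have h5 := Subgroup.inv_mem _ h4
      have e : ⁅u, k⁆⁻¹ = k * u * k⁻¹ * u⁻¹ := by
        rw [commutatorElement_def]
        group
      rwa [e] at h5
    let φ : K ⧸ Subgroup.centralizer {u} → (⊤ : Subgroup K).lowerCentralSeries 2 :=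
      fun q => ⟨q.out * u * q.out⁻¹ * u⁻¹, hmem _⟩
    have hφ : Function.Injective φ := by
      intro q q' h
      have h4 : q.out * u * q.out⁻¹ * u⁻¹ = q'.out * u * q'.out⁻¹ * u⁻¹ :=
        congrArg Subtype.val h
      have h5 : q.out * u * q.out⁻¹ = q'.out * u * q'.out⁻¹ := mul_right_cancel h4
      rw [← QuotientGroup.out_eq' q, ← QuotientGroup.out_eq' q', QuotientGroup.eq,
        Subgroup.mem_centralizer_singleton_iff]
      have h6 : q.out⁻¹ * (q.out * u * q.out⁻¹) * q'.out = q.out⁻¹ * (q'.out * u * q'.out⁻¹) *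
          q'.out := by rw [h5]
      have h7 : q.out⁻¹ * (q.out * u * q.out⁻¹) * q'.out = u * (q.out⁻¹ * q'.out) := by group
      have h8 : q.out⁻¹ * (q'.out * u * q'.out⁻¹) * q'.out = q.out⁻¹ * q'.out * u := by group
      rw [h7, h8] at h6
      exact h6.symm
    have hfin : Finite (K ⧸ Subgroup.centralizer {u}) := Finite.of_injective φ hφ
    exact Subgroup.finiteIndex_of_finite_quotient
  let C : Subgroup K := ⨅ u : s, Subgroup.centralizer {(u : K)}
  have hC : C.FiniteIndex := Subgroup.finiteIndex_iInf fun u => hcent u (by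
    rw [← hs]
    exact Subgroup.subset_closure u.2)
  refine ⟨C, hC, ?_⟩
  have hCc : C ≤ Subgroup.centralizer (commutator K : Set K) := by
    have h4 : commutator K ≤ Subgroup.centralizer (C : Set K) := by
      rw [← hs, Subgroup.closure_le]
      intro u hu
      rw [SetLike.mem_coe, Subgroup.mem_centralizer_iff]
      intro c hc
      have h5 := (Subgroup.mem_iInf.1 hc) ⟨u, hu⟩
      rw [Subgroup.mem_centralizer_singleton_iff] at h5
      exact h5
    intro c hc
    rw [Subgroup.mem_centralizer_iff]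
    intro u hu
    have h5 := h4 hu
    rw [Subgroup.mem_centralizer_iff] at h5
    exact (h5 c hc).symm
  rw [eq_bot_iff, Subgroup.lowerCentralSeries_succ, Subgroup.commutator_le]
  intro u hu c hc
  have h6 : u ∈ commutator K := by
    have h7 : C.lowerCentralSeries 1 ≤ commutator K := by
      rw [Subgroup.lowerCentralSeries_succ]
      exact Subgroup.commutator_mono le_top le_top
    exact h7 hu
  have h8 := hCc hc
  rw [Subgroup.mem_centralizer_iff] at h8
  rw [Subgroup.mem_bot, commutatorElement_eq_one_iff_mul_comm]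
  exact h8 u h6

include hnoe hfab in
/-- The conclusions for a homomorphism whose kernel contains a good subgroup. -/
theorem concl (hG : IsSpecialTypeGroup G) {Q : Type} [Group Q] (f : G →* Q) {A D : Subgroup G}
    (hw : Wit A D) (hDfg : D.FG) (hDk : D ≤ f.ker) : VirtTwo f.range ∧ f.ker.FG := by
  have hfg := hG.qs.fg
  obtain ⟨c, hc⟩ := hw.nil
  have := hw.fin
  have hAfg : Group.FG A := Subgroup.fg_of_index_ne_zero A
  constructor
  · -- the image `B` of `A`
    let g : A →* f.range := f.rangeRestrict.comp A.subtype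
    have hB : g.range = A.map f.rangeRestrict := by
      rw [MonoidHom.range_comp, Subgroup.range_subtype]
    have hBfi : g.range.FiniteIndex := by
      rw [hB, Subgroup.finiteIndex_iff]
      intro h0
      have h2 := Subgroup.index_map_dvd A f.rangeRestrict_surjective
      rw [h0] at h2
      exact hw.fin.index_ne_zero (Nat.eq_zero_of_zero_dvd h2)
    have hBfg : Group.FG g.range := Group.fg_of_surjective g.rangeRestrict_surjective
    have hBbot : (⊤ : Subgroup g.range).lowerCentralSeries c = ⊥ := by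
      have h1 : (⊤ : Subgroup g.range) = (⊤ : Subgroup A).map g.rangeRestrict := by
        rw [Subgroup.map_top_of_surjective _ g.rangeRestrict_surjective]
      rw [h1, ← Subgroup.map_lowerCentralSeries, eq_bot_iff]
      rintro _ ⟨x, hx, rfl⟩
      have h2 : (x : G) ∈ D := top_lcs_le hc hx
      rw [Subgroup.mem_bot]
      apply Subtype.ext
      apply Subtype.ext
      exact hDk h2
    have hnil : Group.IsNilpotent g.range := by
      rw [Subgroup.nilpotent_iff_lowerCentralSeries]
      exact ⟨c, hBbot⟩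
    have hsub : ∀ N : Subgroup g.range, N.FG := fun N =>
      hnoe g.range ⊥ N hBfg ⟨∅, by simp⟩ bot_le (fun h d hd => by
        rw [Subgroup.mem_bot.1 hd]
        simp) ⟨c, hBbot.le⟩
    have hfin : Finite ((⊤ : Subgroup g.range).lowerCentralSeries 2) := by
      refine finite_of_nilpotent hfab _ ((Group.fg_iff_subgroup_fg _).2 (hsub _)) fun k => ?_
      refine AddMonoidHom.ext fun x => ?_
      -- each element has finite order
      obtain ⟨y, hy, hyx⟩ : ∃ y ∈ (⊤ : Subgroup A).lowerCentralSeries 2,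
          g.rangeRestrict y = ((Additive.toMul x : (⊤ : Subgroup g.range).lowerCentralSeries 2) :
            g.range) := by
        have h1 := (Additive.toMul x : (⊤ : Subgroup g.range).lowerCentralSeries 2).2
        have h2 : (⊤ : Subgroup g.range) = (⊤ : Subgroup A).map g.rangeRestrict := by
          rw [Subgroup.map_top_of_surjective _ g.rangeRestrict_surjective]
        have h3 : (⊤ : Subgroup g.range).lowerCentralSeries 2 =
            ((⊤ : Subgroup A).lowerCentralSeries 2).map g.rangeRestrict := by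
          rw [Subgroup.map_lowerCentralSeries, ← h2]
        have h4 : ((Additive.toMul x : (⊤ : Subgroup g.range).lowerCentralSeries 2) : g.range) ∈
            ((⊤ : Subgroup A).lowerCentralSeries 2).map g.rangeRestrict := h3 ▸ h1
        obtain ⟨y, hy, hyx⟩ := h4
        exact ⟨y, hy, hyx⟩
      obtain ⟨n, hn, h5⟩ := hG.nil A D hw y (by
        rw [← Subgroup.top_subtype_lowerCentralSeries]
        exact ⟨y, hy, rfl⟩)
      have h6 : g.rangeRestrict (y ^ n) = 1 := by
        apply Subtype.ext
        apply Subtype.ext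
        exact hDk h5
      have h7 : (Additive.toMul x : (⊤ : Subgroup g.range).lowerCentralSeries 2) ^ n = 1 := by
        apply Subtype.ext
        rw [Subgroup.coe_pow, ← hyx, ← map_pow, h6]
        rfl
      have h8 : n • x = 0 := h7
      have h9 : n • k x = 0 := by
        rw [← map_nsmul, h8, map_zero]
      rw [nsmul_eq_mul] at h9
      rcases mul_eq_zero.1 h9 with h10 | h10
      · exact absurd (by exact_mod_cast h10) hn
      · exact h10
    obtain ⟨C, hC, hC2⟩ := two g.range (hsub _) hfin
    refine ⟨C.map g.range.subtype, map_finiteIndex hBfi hC, ?_⟩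
    rw [← Subgroup.map_lowerCentralSeries, hC2, Subgroup.map_bot]
  · have h1 : ((f.ker ⊓ A).subgroupOf A).FG :=
      hnoe A (D.subgroupOf A) ((f.ker ⊓ A).subgroupOf A) hAfg (subgroupOf_fg hw.le hDfg)
        (fun x hx => ⟨hDk hx, x.2⟩) (fun h d hd => hw.norm h h.2 d hd) ⟨c, top_lcs_le hc⟩
    have h2 : (f.ker ⊓ A).FG := fg_of_subgroupOf inf_le_right h1
    refine fg_of_fi inf_le_left ?_ h2
    have h3 : (f.ker ⊓ A).subgroupOf f.ker = A.subgroupOf f.ker := by
      rw [Subgroup.inf_subgroupOf_left]
    rw [h3]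
    infer_instance

include hfab hfinn in
theorem hom_tame (hG : IsSpecialTypeGroup G) {A D : Subgroup G}
    (hw : Wit A D) (hDfg : D.FG) (hD : FAb D) {Q : Type} [Group Q] (f : G →* Q) (hQ : Tame Q) :
    ∃ A' D' : Subgroup G, Wit A' D' ∧ D'.FG ∧ D' ≤ f.ker := by
  have hfg := hG.qs.fg
  have hDfg' : Group.FG D := (Group.fg_iff_subgroup_fg D).2 hDfg
  let g : D →* Q := f.comp D.subtype
  have hS : (D.map f).FG := fg_map f hDfg
  have hgr : g.range = D.map f := by
    rw [MonoidHom.range_comp, Subgroup.range_subtype]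
  have hfin : Finite (D.map f) := by
    by_contra hinf
    rw [not_finite_iff_infinite] at hinf
    rcases hQ (D.map f) hS hinf with ⟨L, hL, k, hk⟩ | ⟨Q', hQ', n, ρ, hρ⟩
    · -- a homomorphism to `ℂ`
      let g' : D →* (D.map f) :=
        { toFun := fun x => ⟨f x, ⟨x, x.2, rfl⟩⟩
          map_one' := Subtype.ext (map_one f)
          map_mul' := fun x y => Subtype.ext (map_mul f x.1 y.1) }
      have hg' : Function.Surjective g' := by
        rintro ⟨_, ⟨x, hx, rfl⟩⟩
        exact ⟨⟨x, hx⟩, rfl⟩
      let e : (L.comap g') →* L :=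
        { toFun := fun x => ⟨g' x, x.2⟩
          map_one' := Subtype.ext (map_one g')
          map_mul' := fun x y => Subtype.ext (map_mul g' x.1 y.1) }
      have h1 := hD (L.comap g') (comap_fi g' hL) (k.comp (MonoidHom.toAdditive e))
      have h1' : ∀ z : L.comap g', k (Additive.ofMul (e z)) = 0 := fun z =>
        DFunLike.congr_fun h1 (Additive.ofMul z)
      apply hk
      refine AddMonoidHom.ext fun x => ?_
      obtain ⟨y, hy⟩ := hg' (Additive.toMul x : L)
      have hy2 : y ∈ L.comap g' := by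
        rw [Subgroup.mem_comap, hy]
        exact (Additive.toMul x : L).2
      have h2 := h1' ⟨y, hy2⟩
      have h3 : e ⟨y, hy2⟩ = (Additive.toMul x : L) := Subtype.ext hy
      rw [h3] at h2
      exact h2
    · -- a linear representation
      have hG' : (Q'.comap f).FiniteIndex := comap_fi f hQ'
      let r : (Q'.comap f) →* GL (Fin n) ℂ := ρ.comp
        { toFun := fun x => ⟨f x, x.2⟩
          map_one' := Subtype.ext (map_one f)
          map_mul' := fun x y => Subtype.ext (map_mul f x.1 y.1) }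
      have hr := hG.qs.linear (Q'.comap f) hG' n r
      have hD₁ : ((Q'.comap f).subgroupOf D).FiniteIndex := inferInstance
      let i : ((Q'.comap f).subgroupOf D) →* (Q'.comap f) :=
        { toFun := fun x => ⟨((x : D) : G), x.2⟩
          map_one' := rfl
          map_mul' := fun _ _ => rfl }
      have h1 := (hD.sub hD₁).ker_vnil hfab (Subgroup.fg_of_index_ne_zero _)
        (r.rangeRestrict.comp i) hr
      have h2 : Finite (r.rangeRestrict.comp i).range := by
        have h3 : Finite (((Q'.comap f).subgroupOf D) ⧸ (r.rangeRestrict.comp i).ker) :=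
          Subgroup.finite_quotient_of_finiteIndex
        exact Finite.of_equiv _ (QuotientGroup.quotientKerEquivRange _).toEquiv
      have h3 : (((D.map f).subgroupOf Q').map ρ : Set (GL (Fin n) ℂ)) ⊆
          (fun x : r.range => (x : GL (Fin n) ℂ)) '' ((r.rangeRestrict.comp i).range : Set r.range) := by
        rintro _ ⟨y, ⟨d, hd, hdy⟩, rfl⟩
        have hd2 : d ∈ Q'.comap f := by
          rw [Subgroup.mem_comap, hdy]
          exact y.2
        refine ⟨r.rangeRestrict ⟨d, hd2⟩, ⟨⟨⟨d, hd⟩, hd2⟩, rfl⟩, ?_⟩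
        change ρ ⟨f d, hd2⟩ = ρ y
        congr 1
        exact Subtype.ext hdy
      have h4 : ((r.rangeRestrict.comp i).range : Set r.range).Finite := Set.finite_coe_iff.1 h2
      have h5 := (h4.image (fun x : r.range => (x : GL (Fin n) ℂ))).subset h3
      exact (not_finite_iff_infinite.2 hρ) h5.to_subtype
  have hker : g.ker.FiniteIndex := by
    refine finiteIndex_ker_of_range g ?_
    rw [hgr]
    exact hfin
  have hidx : (D ⊓ f.ker).subgroupOf D = g.ker := by
    ext x
    rw [Subgroup.mem_subgroupOf, MonoidHom.mem_ker]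
    exact ⟨fun h => h.2, fun h => ⟨x.2, h⟩⟩
  obtain ⟨A', _, hA'⟩ := finn hfinn hw (inf_le_left : D ⊓ f.ker ≤ D) (by rw [hidx]; exact hker)
    (fun h hh d hd => ⟨hw.norm h hh d hd.1, (MonoidHom.normal_ker f).conj_mem d hd.2 h⟩)
  refine ⟨A', D ⊓ f.ker, hA', ?_, inf_le_right⟩
  refine fg_of_subgroupOf inf_le_left ?_
  rw [hidx]
  have h1 : Group.FG g.ker := Subgroup.fg_of_index_ne_zero _
  exact (Group.fg_iff_subgroup_fg _).1 h1

end Pool.Agent.K6.H86.QS
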