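import Pool.Agent.K6.H86.QS.Stm

/-!
# Project QS2 (helper86): homomorphisms to `ℂ`
-/

set_option autoImplicit false

namespace Pool.Agent.K6.H86.QS

open Pool.Agent.N212.SG Pool.Agent.N991.QS

open scoped TensorProduct

theorem exists_addHom (A : Type) [AddCommGroup A] (x : A) (hx : ∀ n : ℕ, n ≠ 0 → n • x ≠ 0) :
    ∃ f : A →+ ℂ, f x ≠ 0 := by
  let L : A →ₗ[ℤ] ℚ ⊗[ℤ] A := TensorProduct.mk ℤ ℚ A 1
  have hL : L x ≠ 0 := by
    intro h
    have h0 : IsLocalizedModule (nonZeroDivisors ℤ) L :=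
      (isLocalizedModule_iff_isBaseChange (nonZeroDivisors ℤ) ℚ L).2
        (TensorProduct.isBaseChange ℤ A ℚ)
    obtain ⟨c, hc⟩ := (IsLocalizedModule.eq_zero_iff (nonZeroDivisors ℤ) L).1 h
    have hc0 : (c : ℤ) ≠ 0 := nonZeroDivisors.coe_ne_zero c
    have h1 : (c : ℤ) • x = 0 := hc
    apply hx (c : ℤ).natAbs (Int.natAbs_ne_zero.2 hc0)
    rcases Int.natAbs_eq (c : ℤ) with h2 | h2
    · rw [h2] at h1
      rwa [natCast_zsmul] at h1
    · rw [h2, neg_smul, neg_eq_zero] at h1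
      rwa [natCast_zsmul] at h1
  obtain ⟨φ, hφ⟩ : ∃ φ : Module.Dual ℚ (ℚ ⊗[ℤ] A), φ (L x) ≠ 0 := by
    by_contra hcon
    push Not at hcon
    exact hL ((Module.forall_dual_apply_eq_zero_iff ℚ (L x)).1 hcon)
  refine ⟨((algebraMap ℚ ℂ : ℚ →+* ℂ) : ℚ →+ ℂ).comp (φ.toAddMonoidHom.comp L.toAddMonoidHom),
    ?_⟩
  change (algebraMap ℚ ℂ) (φ (L x)) ≠ 0
  rw [Ne, map_eq_zero]
  exact hφ

theorem exists_hom {K : Type} [Group K] (S : Subgroup K)
    (hS : ∀ a b : K, a * b * a⁻¹ * b⁻¹ ∈ S) (u : K) (hu : ∀ n : ℕ, n ≠ 0 → u ^ n ∉ S) :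
    ∃ f : H1 K, (∀ s ∈ S, f (Additive.ofMul s) = 0) ∧ f (Additive.ofMul u) ≠ 0 := by
  have hN : S.Normal := ⟨fun n hn g => by
    have h := S.mul_mem (hS g n) hn
    simpa using h⟩
  let _ : CommGroup (K ⧸ S) :=
    { (inferInstance : Group (K ⧸ S)) with
      mul_comm := fun a b => by
        induction a using QuotientGroup.induction_on with
        | _ a =>
          induction b using QuotientGroup.induction_on with
          | _ b =>
            rw [← QuotientGroup.mk_mul, ← QuotientGroup.mk_mul, QuotientGroup.eq]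
            have h := hS b⁻¹ a⁻¹
            rw [inv_inv, inv_inv] at h
            rwa [mul_inv_rev, ← mul_assoc] }
  obtain ⟨f, hf⟩ := exists_addHom (Additive (K ⧸ S)) (Additive.ofMul (u : K ⧸ S)) (by
    intro n hn h
    rw [← ofMul_pow, ← QuotientGroup.mk_pow] at h
    have h1 : ((u ^ n : K) : K ⧸ S) = 1 := h
    exact hu n hn ((QuotientGroup.eq_one_iff _).1 h1))
  refine ⟨f.comp (MonoidHom.toAdditive (QuotientGroup.mk' S)), fun s hs => ?_, hf⟩
  change f (Additive.ofMul ((s : K) : K ⧸ S)) = 0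
  rw [(QuotientGroup.eq_one_iff s).2 hs]
  exact map_zero f

/-- If all homomorphisms to `ℂ` vanish at `t`, then a power of `t` is in the commutator
subgroup. -/
theorem pow_mem_commutator {G : Type} [Group G] {H : Subgroup G} (t : H)
    (ht : ∀ f : H1 H, f (Additive.ofMul t) = 0) :
    ∃ n : ℕ, n ≠ 0 ∧ (t : G) ^ n ∈ ⁅H, H⁆ := by
  by_contra hcon
  push Not at hcon
  obtain ⟨f, _, hf⟩ := exists_hom (⁅H, H⁆.subgroupOf H)
    (fun a b => Subgroup.commutator_mem_commutator a.2 b.2) t (fun n hn h => hcon n hn h)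
  exact hf (ht f)

end Pool.Agent.K6.H86.QS
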