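import Pool.Agent.K6.H86.QS.Hom

/-!
# Project QS2 (helper86): invariant homomorphisms on the commutator subgroup
-/

set_option autoImplicit false

namespace Pool.Agent.K6.H86.QS

open Pool.Agent.N212.SG Pool.Agent.N991.QS

open scoped commutatorElement

variable {G : Type} [Group G]

theorem conj_mem_comm {H : Subgroup G} {h x : G} (hh : h ∈ H) (hx : x ∈ ⁅H, H⁆) :
    h * x * h⁻¹ ∈ ⁅H, H⁆ := by
  have h2 : ⁅H, H⁆.map (MulAut.conj h).toMonoidHom ≤ ⁅H, H⁆ := by
    rw [Subgroup.map_commutator]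
    have h3 : H.map (MulAut.conj h).toMonoidHom ≤ H := by
      rintro _ ⟨d, hd, rfl⟩
      exact H.mul_mem (H.mul_mem hh hd) (H.inv_mem hh)
    exact Subgroup.commutator_mono h3 h3
  exact h2 ⟨x, hx, rfl⟩

/-- The homomorphisms on `⁅H, H⁆` which are invariant under conjugation by `H` and vanish
on `D`. -/
def V (H D : Subgroup G) : Submodule ℂ (H1 (⁅H, H⁆ : Subgroup G)) where
  carrier := {φ | (∀ (h x : G) (hh : h ∈ H) (hx : x ∈ ⁅H, H⁆),
      φ (Additive.ofMul ⟨h * x * h⁻¹, conj_mem_comm hh hx⟩) = φ (Additive.ofMul ⟨x, hx⟩)) ∧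
    ∀ (x : G) (hx : x ∈ ⁅H, H⁆), x ∈ D → φ (Additive.ofMul ⟨x, hx⟩) = 0}
  zero_mem' := ⟨fun _ _ _ _ => rfl, fun _ _ _ => rfl⟩
  add_mem' := fun {f g} hf hg => ⟨fun h x hh hx => by
    change f _ + g _ = f _ + g _
    rw [hf.1 h x hh hx, hg.1 h x hh hx], fun x hx hD => by
    change f _ + g _ = 0
    rw [hf.2 x hx hD, hg.2 x hx hD, add_zero]⟩
  smul_mem' := fun z f hf => ⟨fun h x hh hx => by
    change z • f _ = z • f _
    rw [hf.1 h x hh hx], fun x hx hD => by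
    change z • f _ = 0
    rw [hf.2 x hx hD, smul_zero]⟩

/-- The commutator in the commutator subgroup. -/
def cm (H : Subgroup G) (a b : H) : (⁅H, H⁆ : Subgroup G) :=
  ⟨⁅(a : G), (b : G)⁆, Subgroup.commutator_mem_commutator a.2 b.2⟩

theorem cm_mul_left {H D : Subgroup G} {φ : H1 (⁅H, H⁆ : Subgroup G)} (hφ : φ ∈ V H D)
    (a b c : H) : φ (Additive.ofMul (cm H (a * b) c)) =
      φ (Additive.ofMul (cm H a c)) + φ (Additive.ofMul (cm H b c)) := by
  have h1 : cm H (a * b) c =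
      (⟨(a : G) * (cm H b c : G) * (a : G)⁻¹, conj_mem_comm a.2 (cm H b c).2⟩ :
        (⁅H, H⁆ : Subgroup G)) * cm H a c := by
    apply Subtype.ext
    change ⁅((a * b : H) : G), (c : G)⁆ = (a : G) * ⁅(b : G), (c : G)⁆ * (a : G)⁻¹ *
      ⁅(a : G), (c : G)⁆
    rw [commutatorElement_def, commutatorElement_def, commutatorElement_def, Subgroup.coe_mul]
    group
  rw [h1, ofMul_mul, map_add, hφ.1 a (cm H b c) a.2 (cm H b c).2, add_comm]

theorem cm_mul_right {H D : Subgroup G} {φ : H1 (⁅H, H⁆ : Subgroup G)} (hφ : φ ∈ V H D)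
    (a b c : H) : φ (Additive.ofMul (cm H c (a * b))) =
      φ (Additive.ofMul (cm H c a)) + φ (Additive.ofMul (cm H c b)) := by
  have h1 : cm H c (a * b) = cm H c a *
      (⟨(a : G) * (cm H c b : G) * (a : G)⁻¹, conj_mem_comm a.2 (cm H c b).2⟩ :
        (⁅H, H⁆ : Subgroup G)) := by
    apply Subtype.ext
    change ⁅(c : G), ((a * b : H) : G)⁆ = ⁅(c : G), (a : G)⁆ * ((a : G) * ⁅(c : G), (b : G)⁆ *
      (a : G)⁻¹)
    rw [commutatorElement_def, commutatorElement_def, commutatorElement_def, Subgroup.coe_mul]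
    group
  rw [h1, ofMul_mul, map_add, hφ.1 a (cm H c b) a.2 (cm H c b).2]

/-- The homomorphism `a ↦ φ ⁅a, b⁆`. -/
def lf {H D : Subgroup G} (φ : V H D) (b : H) : H1 H :=
  AddMonoidHom.mk' (fun a => φ.1 (Additive.ofMul (cm H (Additive.toMul a) b)))
    (fun a a' => cm_mul_left φ.2 (Additive.toMul a) (Additive.toMul a') b)

theorem lf_apply {H D : Subgroup G} (φ : V H D) (b a : H) :
    lf φ b (Additive.ofMul a) = φ.1 (Additive.ofMul (cm H a b)) := rfl

/-- The pairing defined by `φ`. -/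
def pr {H D : Subgroup G} (φ : V H D) : Additive H →+ H1 H :=
  AddMonoidHom.mk' (fun b => lf φ (Additive.toMul b))
    (fun b b' => by
      refine AddMonoidHom.ext fun a => ?_
      exact cm_mul_right φ.2 (Additive.toMul b) (Additive.toMul b') (Additive.toMul a))

theorem pr_apply {H D : Subgroup G} (φ : V H D) (b a : H) :
    pr φ (Additive.ofMul b) (Additive.ofMul a) = φ.1 (Additive.ofMul (cm H a b)) := rfl

/-- An invariant homomorphism is determined by its values at the commutators. -/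
theorem eq_zero_of_cm {H : Subgroup G} (φ : H1 (⁅H, H⁆ : Subgroup G))
    (h : ∀ a b : H, φ (Additive.ofMul (cm H a b)) = 0) : φ = 0 := by
  have h1 : ∀ (x : G) (hx : x ∈ ⁅H, H⁆), φ (Additive.ofMul ⟨x, hx⟩) = 0 := by
    intro x hx
    have hx' := hx
    rw [Subgroup.commutator_def] at hx'
    induction hx' using Subgroup.closure_induction with
    | mem y hy =>
      obtain ⟨a, ha, b, hb, rfl⟩ := hy
      exact h ⟨a, ha⟩ ⟨b, hb⟩
    | one => exact map_zero φ
    | mul a b ha hb iha ihb =>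
      rw [← Subgroup.commutator_def] at ha hb
      have e : (⟨a * b, hx⟩ : (⁅H, H⁆ : Subgroup G)) = ⟨a, ha⟩ * ⟨b, hb⟩ := rfl
      rw [e, ofMul_mul, map_add, iha ha, ihb hb, add_zero]
    | inv a ha iha =>
      rw [← Subgroup.commutator_def] at ha
      have e : (⟨a⁻¹, hx⟩ : (⁅H, H⁆ : Subgroup G)) = ⟨a, ha⟩⁻¹ := rfl
      rw [e, ofMul_inv, map_neg, iha ha, neg_zero]
  refine AddMonoidHom.ext fun x => ?_
  exact h1 (Additive.toMul x).1 (Additive.toMul x).2

theorem pr_inj {H D : Subgroup G} (φ : V H D) (h : pr φ = 0) : φ = 0 := by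
  apply Subtype.ext
  refine eq_zero_of_cm _ fun a b => ?_
  rw [← pr_apply φ b a, h]
  rfl

/-- The coordinates of the pairing. -/
noncomputable def co {H D : Subgroup G} (hfin : Module.Finite ℂ (H1 H)) :
    V H D →ₗ[ℂ] (Fin (Module.finrank ℂ (H1 H)) → H1 H) where
  toFun φ i := AddMonoidHom.mk' (fun b => (Module.finBasis ℂ (H1 H)).repr (pr φ b) i)
    (fun b b' => by rw [map_add, map_add]; rfl)
  map_add' φ ψ := by
    funext i
    refine AddMonoidHom.ext fun b => ?_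
    have e : pr (φ + ψ) b = pr φ b + pr ψ b := rfl
    change (Module.finBasis ℂ (H1 H)).repr (pr (φ + ψ) b) i =
      (Module.finBasis ℂ (H1 H)).repr (pr φ b) i + (Module.finBasis ℂ (H1 H)).repr (pr ψ b) i
    rw [e, map_add]
    rfl
  map_smul' z φ := by
    funext i
    refine AddMonoidHom.ext fun b => ?_
    have e : pr (z • φ) b = z • pr φ b := rfl
    change (Module.finBasis ℂ (H1 H)).repr (pr (z • φ) b) i =
      z • (Module.finBasis ℂ (H1 H)).repr (pr φ b) i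
    rw [e, map_smul]
    rfl

theorem co_inj {H D : Subgroup G} (hfin : Module.Finite ℂ (H1 H)) :
    Function.Injective (co (D := D) hfin) := by
  rw [← LinearMap.ker_eq_bot, LinearMap.ker_eq_bot']
  intro φ hφ
  apply pr_inj
  refine AddMonoidHom.ext fun b => ?_
  apply (Module.finBasis ℂ (H1 H)).repr.injective
  ext i
  have h1 := DFunLike.congr_fun (congrFun hφ i) b
  change (Module.finBasis ℂ (H1 H)).repr (pr φ b) i = 0 at h1
  rw [h1]
  simp

theorem V_finite {H : Subgroup G} (D : Subgroup G) (hH : Group.FG H) :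
    Module.Finite ℂ (V H D) := by
  have hfin : Module.Finite ℂ (H1 H) := Pool.Agent.N615.SG.fin H hH
  exact Module.Finite.of_injective (co (D := D) hfin) (co_inj hfin)

theorem V_le {H : Subgroup G} (D : Subgroup G) (hH : Group.FG H) :
    Module.finrank ℂ (V H D) ≤ Module.finrank ℂ (H1 H) * Module.finrank ℂ (H1 H) := by
  have hfin : Module.Finite ℂ (H1 H) := Pool.Agent.N615.SG.fin H hH
  have h1 := LinearMap.finrank_le_finrank_of_injective (co_inj (D := D) hfin)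
  refine h1.trans (le_of_eq ?_)
  rw [Module.finrank_pi_fintype]
  simp

/-- Restriction. -/
def rs {H H' D D' : Subgroup G} (hH : H' ≤ H) (hD : D' ≤ D) : V H D →ₗ[ℂ] V H' D' where
  toFun φ := ⟨φ.1.comp (MonoidHom.toAdditive
      (Subgroup.inclusion (Subgroup.commutator_mono hH hH))),
    fun h x hh hx => φ.2.1 h x (hH hh) (Subgroup.commutator_mono hH hH hx),
    fun x hx hxD => φ.2.2 x (Subgroup.commutator_mono hH hH hx) (hD hxD)⟩
  map_add' _ _ := rfl
  map_smul' _ _ := rfl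

theorem rs_cm {H H' D D' : Subgroup G} (hH : H' ≤ H) (hD : D' ≤ D) (φ : V H D) (a b : H)
    (ha : (a : G) ∈ H') (hb : (b : G) ∈ H') :
    (rs hH hD φ).1 (Additive.ofMul (cm H' ⟨a, ha⟩ ⟨b, hb⟩)) =
      φ.1 (Additive.ofMul (cm H a b)) := rfl

theorem pow_left {H D : Subgroup G} (φ : V H D) (a b : H) (n : ℕ) :
    φ.1 (Additive.ofMul (cm H (a ^ n) b)) = n * φ.1 (Additive.ofMul (cm H a b)) := by
  rw [← lf_apply, ← lf_apply, ofMul_pow, map_nsmul, nsmul_eq_mul]

theorem pow_right {H D : Subgroup G} (φ : V H D) (a b : H) (n : ℕ) :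
    φ.1 (Additive.ofMul (cm H a (b ^ n))) = n * φ.1 (Additive.ofMul (cm H a b)) := by
  rw [← pr_apply, ← pr_apply, ofMul_pow, map_nsmul]
  change n • (pr φ (Additive.ofMul b) (Additive.ofMul a)) = _
  rw [nsmul_eq_mul]

theorem rs_inj {H H' D D' : Subgroup G} (hH : H' ≤ H) (hD : D' ≤ D) (hf : H'.FiniteIndex) :
    Function.Injective (rs hH hD) := by
  rw [← LinearMap.ker_eq_bot, LinearMap.ker_eq_bot']
  intro φ hφ
  apply Subtype.ext
  refine eq_zero_of_cm _ fun a b => ?_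
  obtain ⟨n, hn, -, ha⟩ := Subgroup.exists_pow_mem_of_index_ne_zero hf.index_ne_zero (a : G)
  obtain ⟨m, hm, -, hb⟩ := Subgroup.exists_pow_mem_of_index_ne_zero hf.index_ne_zero (b : G)
  have h1 := rs_cm hH hD φ (a ^ n) (b ^ m) ha hb
  rw [hφ, pow_left, pow_right] at h1
  have h2 : (0 : ℂ) = n * (m * φ.1 (Additive.ofMul (cm H a b))) := h1
  have hn' : (n : ℂ) ≠ 0 := Nat.cast_ne_zero.2 (by omega)
  have hm' : (m : ℂ) ≠ 0 := Nat.cast_ne_zero.2 (by omega)
  rcases mul_eq_zero.1 h2.symm with h3 | h3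
  · exact absurd h3 hn'
  · rcases mul_eq_zero.1 h3 with h4 | h4
    · exact absurd h4 hm'
    · exact h4

theorem V_mono {H H' D D' : Subgroup G} (hfg : Group.FG H') (hH : H' ≤ H) (hD : D' ≤ D)
    (hf : H'.FiniteIndex) : Module.finrank ℂ (V H D) ≤ Module.finrank ℂ (V H' D') := by
  have : Module.Finite ℂ (V H' D') := V_finite D' hfg
  exact LinearMap.finrank_le_finrank_of_injective (rs_inj hH hD hf)

/-- The dimension increases strictly. -/
theorem V_lt {H D D' : Subgroup G} (hfg : Group.FG H) (hD : D' ≤ D) (hD'H : D' ≤ H)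
    (hn : ∀ h ∈ H, ∀ d ∈ D', h * d * h⁻¹ ∈ D')
    (h3 : ∀ x ∈ H.lowerCentralSeries 2, ∃ n : ℕ, n ≠ 0 ∧ x ^ n ∈ D')
    (t : H) (htD : (t : G) ∈ D) (ht : ∀ f : H1 H, f (Additive.ofMul t) = 0)
    (htD' : ∀ n : ℕ, n ≠ 0 → (t : G) ^ n ∉ D') :
    Module.finrank ℂ (V H D) < Module.finrank ℂ (V H D') := by
  have : Module.Finite ℂ (V H D') := V_finite D' hfg
  have hN : (D'.subgroupOf H).Normal := ⟨fun x hx h => hn h h.2 x hx⟩
  obtain ⟨k, hk, htk⟩ := pow_mem_commutator t ht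
  have hCH : ⁅H, H⁆ ≤ H := comm_le_self H
  have h2 : ∀ x ∈ ⁅H, H⁆, ∀ h ∈ H, x * h * x⁻¹ * h⁻¹ ∈ H.lowerCentralSeries 2 := by
    intro x hx h hh
    exact Subgroup.commutator_mem_commutator (H₁ := H.lowerCentralSeries 1) hx hh
  -- the subgroup
  let S : Subgroup (⁅H, H⁆ : Subgroup G) :=
    { carrier := {x | ∃ g ∈ H.lowerCentralSeries 2, g⁻¹ * (x : G) ∈ D'}
      one_mem' := ⟨1, Subgroup.one_mem _, by simp⟩
      mul_mem' := by
        rintro a b ⟨g, hg, hga⟩ ⟨g', hg', hgb⟩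
        refine ⟨g * g', Subgroup.mul_mem _ hg hg', ?_⟩
        have hg'H : g' ∈ H := Subgroup.lowerCentralSeries_le_self H 2 hg'
        have h4 := D'.mul_mem (hn g'⁻¹ (H.inv_mem hg'H) _ hga) hgb
        have e : g'⁻¹ * (g⁻¹ * (a : G)) * g'⁻¹⁻¹ * (g'⁻¹ * (b : G)) =
            (g * g')⁻¹ * ((a * b : (⁅H, H⁆ : Subgroup G)) : G) := by
          rw [Subgroup.coe_mul]
          group
        rw [← e]
        exact h4
      inv_mem' := by
        rintro a ⟨g, hg, hga⟩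
        refine ⟨g⁻¹, Subgroup.inv_mem _ hg, ?_⟩
        have hgH : g ∈ H := Subgroup.lowerCentralSeries_le_self H 2 hg
        have h4 := hn g hgH _ (D'.inv_mem hga)
        have e : g * (g⁻¹ * (a : G))⁻¹ * g⁻¹ =
            g⁻¹⁻¹ * ((a⁻¹ : (⁅H, H⁆ : Subgroup G)) : G) := by
          rw [Subgroup.coe_inv]
          group
        rw [← e]
        exact h4 }
  obtain ⟨f, hfS, hfu⟩ := exists_hom S
    (fun a b => ⟨_, h2 a a.2 b (hCH b.2), by
      have e : ((a : G) * b * (a : G)⁻¹ * (b : G)⁻¹)⁻¹ *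
        ((a * b * a⁻¹ * b⁻¹ : (⁅H, H⁆ : Subgroup G)) : G) = 1 := by
        rw [inv_mul_eq_one]
        rfl
      rw [e]
      exact D'.one_mem⟩) ⟨(t : G) ^ k, htk⟩ (by
      rintro n hn0 ⟨g, hg, hgu⟩
      obtain ⟨m, hm, hgm⟩ := h3 g hg
      have hgH : g ∈ H := Subgroup.lowerCentralSeries_le_self H 2 hg
      have h5 : (((t ^ k) ^ n : H) : H ⧸ D'.subgroupOf H) = ((⟨g, hgH⟩ : H) : H ⧸ D'.subgroupOf H) := by
        rw [eq_comm, QuotientGroup.eq]
        exact hgu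
      have h6 : ((((t ^ k) ^ n) ^ m : H) : H ⧸ D'.subgroupOf H) = 1 := by
        rw [QuotientGroup.mk_pow, h5, ← QuotientGroup.mk_pow, QuotientGroup.eq_one_iff]
        exact hgm
      rw [QuotientGroup.eq_one_iff, ← pow_mul, ← pow_mul] at h6
      exact htD' (k * (n * m)) (Nat.mul_ne_zero hk (Nat.mul_ne_zero hn0 hm)) h6)
  have hle : V H D ≤ V H D' := fun φ hφ => ⟨hφ.1, fun x hx hxD => hφ.2 x hx (hD hxD)⟩
  have hfV : f ∈ V H D' := by
    refine ⟨fun h x hh hx => ?_, fun x hx hxD => hfS _ ⟨1, Subgroup.one_mem _, by simpa using hxD⟩⟩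
    have h7 : (⟨h * x * h⁻¹ * x⁻¹, (⁅H, H⁆ : Subgroup G).mul_mem (conj_mem_comm hh hx)
        (Subgroup.inv_mem _ hx)⟩ : (⁅H, H⁆ : Subgroup G)) ∈ S := by
      refine ⟨h * x * h⁻¹ * x⁻¹, ?_, ?_⟩
      · have h8 := Subgroup.inv_mem _ (h2 x hx h hh)
        have e : (x * h * x⁻¹ * h⁻¹)⁻¹ = h * x * h⁻¹ * x⁻¹ := by group
        rwa [e] at h8
      · rw [inv_mul_cancel]
        exact D'.one_mem
    have h8 := hfS _ h7
    have e : (⟨h * x * h⁻¹ * x⁻¹, (⁅H, H⁆ : Subgroup G).mul_mem (conj_mem_comm hh hx)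
        (Subgroup.inv_mem _ hx)⟩ : (⁅H, H⁆ : Subgroup G)) =
        ⟨h * x * h⁻¹, conj_mem_comm hh hx⟩ * ⟨x, hx⟩⁻¹ := rfl
    rw [e, ofMul_mul, ofMul_inv, map_add, map_neg] at h8
    exact add_neg_eq_zero.1 h8
  refine Submodule.finrank_lt_finrank_of_lt (lt_of_le_of_ne hle fun he => hfu ?_)
  rw [← he] at hfV
  exact hfV.2 _ htk (D.pow_mem htD k)

end Pool.Agent.K6.H86.QS
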