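import Pool.Agent.K6.H86.QS.Cls
import Pool.Agent.N984.QS.FGZ
import Pool.Agent.N985.QS.TAU
import Pool.Agent.N985.QS.COC
import Pool.Agent.N985.QS.NOE
import Pool.Agent.N986.QS.EIGN
import Pool.Agent.N987.QS.AFF
import Pool.Agent.N987.QS.FAB
import Pool.Agent.N987.QS.FINN
import Pool.Agent.N987.QS.INTG
import Pool.Agent.N987.QS.RANK

/-!
# Project QS2 (helper86): main theorems
-/

set_option autoImplicit false

namespace Pool.Agent.K6.H86.QS

open Pool.Agent.N212.SG Pool.Agent.N991.QS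

theorem VirtTwo.equiv {K K' : Type} [Group K] [Group K'] (e : K ≃* K') (h : VirtTwo K) :
    VirtTwo K' := by
  obtain ⟨A, hA, h2⟩ := h
  refine ⟨A.map e.toMonoidHom, ?_, ?_⟩
  · rw [Subgroup.finiteIndex_iff]
    intro h0
    have h3 := Subgroup.index_map_dvd A (f := e.toMonoidHom) e.surjective
    rw [h0] at h3
    exact hA.index_ne_zero (Nat.eq_zero_of_zero_dvd h3)
  · rw [← Subgroup.map_lowerCentralSeries, h2, Subgroup.map_bot]

variable {G : Type} [Group G]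

theorem exists_wit' (hG : IsSpecialTypeGroup G) :
    ∃ H D : Subgroup G, Wit H D ∧ D.FG ∧ FAb D :=
  exists_wit (Pool.Agent.N984.QS.t_FGZ Pool.Agent.N985.QS.TAU.t_TAU)
    Pool.Agent.N986.QS.t_EIGN Pool.Agent.N985.QS.COC.t_COC Pool.Agent.N987.QS.t_AFF
    Pool.Agent.N987.QS.t_FINN Pool.Agent.N987.QS.t_INTG hG

theorem main1 (hG : IsSpecialTypeGroup G) :
    ∃ H₀ : Subgroup G, H₀.FiniteIndex ∧ ∀ H : Subgroup G, H ≤ H₀ → H.FiniteIndex →
      (H.lowerCentralSeries 2).FG ∧ FAb (H.lowerCentralSeries 2) ∧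
      (VirtNilpotent G ↔ Finite (H.lowerCentralSeries 2)) := by
  obtain ⟨H, D, hw, hDfg, hD⟩ := exists_wit' hG
  refine ⟨H, hw.fin, fun K hKH hK => ?_⟩
  obtain ⟨h1, h2⟩ := gamma Pool.Agent.N987.QS.t_FAB Pool.Agent.N985.QS.NOE.t_NOE hG hw hDfg hD
    hKH hK
  exact ⟨h1, h2, fun h => finite_of_fab Pool.Agent.N987.QS.t_FAB h1 h2 h,
    fun h => virtNil_of_finite Pool.Agent.N987.QS.t_FINN hK h⟩

theorem main2 (hG : IsSpecialTypeGroup G) {Q : Type} [Group Q] (f : G →* Q) (hQ : Tame Q) :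
    VirtTwo f.range ∧ f.ker.FG := by
  obtain ⟨H, D, hw, hDfg, hD⟩ := exists_wit' hG
  obtain ⟨A, D', hA, hD'fg, hD'k⟩ := hom_tame Pool.Agent.N987.QS.t_FINN
    Pool.Agent.N987.QS.t_FAB hG hw hDfg hD f hQ
  exact concl Pool.Agent.N987.QS.t_FAB Pool.Agent.N985.QS.NOE.t_NOE hG f hA hD'fg hD'k

theorem main3 (hG : IsSpecialTypeGroup G) (hT : Tame G) : VirtTwo G := by
  have h1 := (main2 hG (MonoidHom.id G) hT).1
  have e : (MonoidHom.id G).range ≃* G :=
    { toFun := fun x => x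
      invFun := fun x => ⟨x, x, rfl⟩
      left_inv := fun _ => rfl
      right_inv := fun _ => rfl
      map_mul' := fun _ _ => rfl }
  exact h1.equiv e

end Pool.Agent.K6.H86.QS
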