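import Pool.Agent.K6.H86.QS.Step

/-!
# Project QS2 (helper86): the maximal quotient
-/

set_option autoImplicit false

namespace Pool.Agent.K6.H86.QS

open Pool.Agent.N212.SG Pool.Agent.N991.QS

variable {G : Type} [Group G]

/-- Subgroups of finite index contain good subgroups. -/
theorem good_fin' (hfinn : S_FINN) {H D : Subgroup G} (hw : Wit H D) (hDfg : D.FG)
    (L : Subgroup D) (hL : L.FiniteIndex) : ∃ A D' : Subgroup G, A ≤ H ∧ Wit A D' ∧ D'.FG ∧
      D' ≤ D ∧ (D'.subgroupOf D).FiniteIndex ∧ ∀ x : D, (x : G) ∈ D' → x ∈ L := by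
  have hfgD : Group.FG D := (Group.fg_iff_subgroup_fg D).2 hDfg
  obtain ⟨L', hL'L, hL', hch⟩ := @Pool.Agent.N618.SG.t_CORE.{0} D _ hfgD L hL
  have hle : L'.map D.subtype ≤ D := by
    rintro x ⟨y, _, rfl⟩
    exact y.2
  have hmem : ∀ x : D, (x : G) ∈ L'.map D.subtype ↔ x ∈ L' := by
    intro x
    constructor
    · rintro ⟨y, hy, hyx⟩
      have : y = x := Subtype.ext hyx
      exact this ▸ hy
    · exact fun h => ⟨x, h, rfl⟩
  have hn : ∀ h ∈ H, ∀ d ∈ L'.map D.subtype, h * d * h⁻¹ ∈ L'.map D.subtype := by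
    rintro h hh d ⟨y, hy, rfl⟩
    let φ : D ≃* D :=
      { toFun := fun x => ⟨h * x * h⁻¹, hw.norm h hh x x.2⟩
        invFun := fun x => ⟨h⁻¹ * x * h, by
          have := hw.norm h⁻¹ (H.inv_mem hh) x x.2
          rwa [inv_inv] at this⟩
        left_inv := fun x => Subtype.ext (by
          change h⁻¹ * (h * (x : G) * h⁻¹) * h = x
          group)
        right_inv := fun x => Subtype.ext (by
          change h * (h⁻¹ * (x : G) * h) * h⁻¹ = x
          group)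
        map_mul' := fun x y => Subtype.ext (by
          change h * ((x : G) * y) * h⁻¹ = h * x * h⁻¹ * (h * y * h⁻¹)
          group) }
    have h1 := (Subgroup.characteristic_iff_map_eq.1 hch) φ
    have h2 : φ y ∈ L' := by
      rw [← h1]
      exact ⟨y, hy, rfl⟩
    exact (hmem (φ y)).2 h2
  have hidx : ((L'.map D.subtype).subgroupOf D) = L' := by
    ext x
    exact hmem x
  obtain ⟨A, hAH, hA⟩ := finn hfinn hw hle (by rw [hidx]; exact hL') hn
  refine ⟨A, L'.map D.subtype, hAH, hA, ?_, hle, by rw [hidx]; exact hL',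
    fun x hx => hL'L ((hmem x).1 hx)⟩
  apply fg_map
  have h3 : Group.FG L' := Subgroup.fg_of_index_ne_zero L'
  exact (Group.fg_iff_subgroup_fg L').1 h3

theorem exists_fab (hfgz : S_FGZ) (heign : S_EIGN) (hcoc : Pool.Agent.N991.QS.S_COC)
    (haff : S_AFF) (hfinn : S_FINN) (hintg : S_INTG) (hG : IsSpecialTypeGroup G)
    (hm : MaxBetti G) : ∃ H D : Subgroup G, Wit H D ∧ D.FG ∧ FAb D := by
  have hfg := hG.qs.fg
  have hfgH : ∀ H : Subgroup G, H.FiniteIndex → Group.FG H := fun H hH => by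
    have := hH
    exact Subgroup.fg_of_index_ne_zero H
  obtain ⟨B, hB⟩ := hG.qs.betti
  let T : Set ℕ := {n | ∃ H D : Subgroup G, Wit H D ∧ D.FG ∧ D ≤ albKer G ∧
    Module.finrank ℂ (V H D) = n}
  have hne : T.Nonempty := by
    obtain ⟨h1, h2, H, hw⟩ := good_albKer hG.qs
    exact ⟨_, H, _, hw, h1, h2, rfl⟩
  have hbd : BddAbove T := by
    refine ⟨B * B, ?_⟩
    rintro n ⟨H, D, hw, _, _, rfl⟩
    exact (V_le D (hfgH H hw.fin)).trans (Nat.mul_le_mul (hB H hw.fin) (hB H hw.fin))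
  obtain ⟨H, D, hw, hDfg, hDalb, he⟩ := Nat.sSup_mem hne hbd
  refine ⟨H, D, hw, hDfg, fun L hL f => ?_⟩
  by_contra hf
  obtain ⟨A, D', hAH, hA, hD'fg, hD'D, hfi, hD'L⟩ := good_fin' hfinn hw hDfg L hL
  have hne' : ∃ f : H1 D', f ≠ 0 := by
    let ι : D' →* L :=
      { toFun := fun x => ⟨⟨x, hD'D x.2⟩, hD'L ⟨x, hD'D x.2⟩ x.2⟩
        map_one' := rfl
        map_mul' := fun _ _ => rfl }
    refine ⟨f.comp (MonoidHom.toAdditive ι), fun h0 => hf ?_⟩
    refine AddMonoidHom.ext fun y => ?_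
    obtain ⟨n, hn, -, hy⟩ := Subgroup.exists_pow_mem_of_index_ne_zero hfi.index_ne_zero
      ((Additive.toMul y : L) : D)
    have h1 := DFunLike.congr_fun h0 (Additive.ofMul (⟨_, hy⟩ : D'))
    have h2 : ι ⟨_, hy⟩ = (Additive.toMul y : L) ^ n := rfl
    change f (Additive.ofMul (ι ⟨_, hy⟩)) = 0 at h1
    rw [h2, ofMul_pow, map_nsmul, nsmul_eq_mul] at h1
    rcases mul_eq_zero.1 h1 with h3 | h3
    · exact absurd (by exact_mod_cast h3) (show n ≠ 0 by omega)
    · exact h3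
  obtain ⟨H₃, P, t, hH₃A, hw₃, hwP, hPfg, hPD', htD', htP⟩ :=
    step hfgz heign hcoc haff hintg hG.qs hm hA hD'fg (hD'D.trans hDalb) hne'
  have h1 : Module.finrank ℂ (V H D) ≤ Module.finrank ℂ (V H₃ D') :=
    V_mono (hfgH H₃ hw₃.fin) (hH₃A.trans hAH) hD'D hw₃.fin
  have h2 : Module.finrank ℂ (V H₃ D') < Module.finrank ℂ (V H₃ P) :=
    V_lt (hfgH H₃ hw₃.fin) hPD' hwP.le hwP.norm (hG.nil H₃ P hwP) ⟨t, hw₃.le htD'⟩ htD'
      (hom_zero hfg hm hw₃.fin _ (hDalb (hD'D htD'))) htP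
  have h3 : Module.finrank ℂ (V H₃ P) ≤ sSup T :=
    le_csSup hbd ⟨H₃, P, hwP, hPfg, hPD'.trans (hD'D.trans hDalb), rfl⟩
  omega

end Pool.Agent.K6.H86.QS
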