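import Pool.Agent.K6.H86.QS.Inv

/-!
# Project QS2 (helper86): the step
-/

set_option autoImplicit false

namespace Pool.Agent.K6.H86.QS

open Pool.Agent.N212.SG Pool.Agent.N991.QS

variable {G : Type} [Group G]

theorem step (hfgz : S_FGZ) (heign : S_EIGN) (hcoc : Pool.Agent.N991.QS.S_COC) (haff : S_AFF)
    (hintg : S_INTG) (hG : IsQuasiSpecialGroup G) (hm : MaxBetti G)
    {H D : Subgroup G} (hw : Wit H D) (hDfg : D.FG) (hDalb : D ≤ albKer G)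
    (hne : ∃ f : H1 D, f ≠ 0) :
    ∃ (H' P : Subgroup G) (t : G), H' ≤ H ∧ Wit H' D ∧ Wit H' P ∧ P.FG ∧ P ≤ D ∧ t ∈ D ∧
      ∀ n : ℕ, n ≠ 0 → t ^ n ∉ P := by
  have hfgD : Group.FG D := (Group.fg_iff_subgroup_fg D).2 hDfg
  obtain ⟨f0, hf0'⟩ := hne
  let S : Subgroup G := ⊥
  have hSn : ∀ h ∈ H, ∀ s ∈ S, h * s * h⁻¹ ∈ S := by
    intro h _ s hs
    rw [Subgroup.mem_bot.1 hs]
    simp [S]
  have hf0 : ∀ s ∈ S.subgroupOf D, f0 (Additive.ofMul s) = 0 := by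
    intro s hs
    have h1 : (s : G) = 1 := Subgroup.mem_bot.1 hs
    have h2 : s = 1 := Subtype.ext h1
    rw [h2]
    exact map_zero f0
  obtain ⟨c, hc⟩ := hw.nil
  have hfin : Module.Finite ℂ (H1 D) := Pool.Agent.N615.SG.fin D hfgD
  have hfd : FiniteDimensional ℂ (ann D (S.subgroupOf D)) := inferInstance
  have hnt : Nontrivial (ann D (S.subgroupOf D)) :=
    ⟨⟨⟨f0, hf0⟩, 0, fun h => hf0' (congrArg Subtype.val h)⟩⟩
  obtain ⟨v, hv0, A, l, hA, hAv, hstab⟩ := heign H (ann D (S.subgroupOf D)) (act hw hSn) c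
    (fun x hx => act_triv hw hSn x (hc (by
      have h1 : (x : G) ∈ ((⊤ : Subgroup H).lowerCentralSeries c).map H.subtype := ⟨x, hx, rfl⟩
      rwa [Subgroup.top_subtype_lowerCentralSeries] at h1)))
  -- the subgroup `H₂`
  set H₂ : Subgroup G := A.map H.subtype with hH₂
  have hH₂fi : H₂.FiniteIndex := map_finiteIndex hw.fin hA
  have hH₂H : H₂ ≤ H := by
    rintro x ⟨y, _, rfl⟩
    exact y.2
  have hH₂A : ∀ g ∈ H₂, ∀ hg : g ∈ H, (⟨g, hg⟩ : H) ∈ A := by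
    rintro g ⟨y, hy, hyg⟩ hg
    have : y = ⟨g, hg⟩ := Subtype.ext hyg
    exact this ▸ hy
  have hDH₂ : D ≤ H₂ := by
    intro d hd
    refine ⟨⟨d, hw.le hd⟩, hstab _ ⟨1, ?_⟩, rfl⟩
    rw [act_triv hw hSn _ hd, one_smul]
    rfl
  have hinvmem : ∀ g : H₂, ((g : G)⁻¹ ∈ H) := fun g => H.inv_mem (hH₂H g.2)
  let l' : H₂ →* ℂ :=
    { toFun := fun g => l ⟨⟨(g : G)⁻¹, hinvmem g⟩, hH₂A _ (H₂.inv_mem g.2) _⟩
      map_one' := by
        have : (⟨⟨((1 : H₂) : G)⁻¹, hinvmem 1⟩, hH₂A _ (H₂.inv_mem (1 : H₂).2) _⟩ : A) = 1 :=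
          Subtype.ext (Subtype.ext (by simp))
        rw [this, map_one]
      map_mul' := fun a b => by
        have : (⟨⟨((a * b : H₂) : G)⁻¹, hinvmem (a * b)⟩, hH₂A _ (H₂.inv_mem (a * b).2) _⟩ : A) =
            ⟨⟨(b : G)⁻¹, hinvmem b⟩, hH₂A _ (H₂.inv_mem b.2) _⟩ *
            ⟨⟨(a : G)⁻¹, hinvmem a⟩, hH₂A _ (H₂.inv_mem a.2) _⟩ :=
          Subtype.ext (Subtype.ext (by
            change ((a * b : H₂) : G)⁻¹ = (b : G)⁻¹ * (a : G)⁻¹
            rw [Subgroup.coe_mul, mul_inv_rev]))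
        rw [this, map_mul, mul_comm] }
  have key : ∀ (g : H₂) (d : D) (hd : (g : G) * d * (g : G)⁻¹ ∈ D),
      v.1 (Additive.ofMul ⟨(g : G) * d * (g : G)⁻¹, hd⟩) = l' g * v.1 (Additive.ofMul d) := by
    intro g d hd
    have h1 := hAv ⟨⟨(g : G)⁻¹, hinvmem g⟩, hH₂A _ (H₂.inv_mem g.2) _⟩
    have h2 := congrArg (fun w : ann D (S.subgroupOf D) => w.1 (Additive.ofMul d)) h1
    have h3 : (act hw hSn ⟨(g : G)⁻¹, hinvmem g⟩ v).1 (Additive.ofMul d) =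
        l' g * v.1 (Additive.ofMul d) := h2
    rw [← h3, act_apply]
    apply congrArg v.1
    apply congrArg Additive.ofMul
    apply Subtype.ext
    change (g : G) * d * (g : G)⁻¹ = ((g : G)⁻¹)⁻¹ * d * (g : G)⁻¹
    rw [inv_inv]
  obtain ⟨y, hy⟩ : ∃ y : D, v.1 (Additive.ofMul y) ≠ 0 := by
    by_contra hcon
    push Not at hcon
    apply hv0
    apply Subtype.ext
    refine AddMonoidHom.ext fun x => ?_
    exact hcon (Additive.toMul x)
  have hlD : ∀ g : H₂, (g : G) ∈ D → l' g = 1 := by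
    intro g hg
    have h1 := hw.norm g (hH₂H g.2) y y.2
    have h2 := key g y h1
    have h3 : (⟨(g : G) * y * (g : G)⁻¹, h1⟩ : D) = ⟨g, hg⟩ * y * (⟨g, hg⟩ : D)⁻¹ := rfl
    rw [h3, ofMul_mul, ofMul_mul, ofMul_inv, map_add, map_add, map_neg] at h2
    have h4 : v.1 (Additive.ofMul y) * (l' g - 1) = 0 := by
      linear_combination -h2
    have h5 := (mul_eq_zero.1 h4).resolve_left hy
    linear_combination h5
  -- the character has finite order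
  obtain ⟨n, hn, hln⟩ : ∃ n : ℕ, n ≠ 0 ∧ ∀ g, l' g ^ n = 1 := by
    by_cases hl : ∀ g, l' g = 1
    · exact ⟨1, one_ne_zero, fun g => by rw [hl g, one_pow]⟩
    push Not at hl
    have hKn : (D.subgroupOf H₂).Normal := ⟨fun x hx h => hw.norm h (hH₂H h.2) x hx⟩
    let j : (D.subgroupOf H₂) →* D :=
      { toFun := fun k => ⟨((k : H₂) : G), k.2⟩
        map_one' := rfl
        map_mul' := fun _ _ => rfl }
    obtain ⟨c', hc'⟩ := (hw.mono hH₂fi hH₂H hDH₂).nil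
    obtain ⟨cf, hcf, hcfK⟩ := hcoc H₂ (D.subgroupOf H₂) ⟨c', top_lcs_le hc'⟩
      (v.1.comp (MonoidHom.toAdditive j)) l' (fun k hk => hlD k hk) hl
      (fun g k => key g ⟨((k : H₂) : G), k.2⟩ _)
    refine haff H₂ (hG.linear H₂ hH₂fi) l' cf ⟨y, hDH₂ y.2⟩ hcf (hlD _ y.2) ?_
    rw [hcfK ⟨⟨y, hDH₂ y.2⟩, y.2⟩]
    exact hy
  -- the subgroup `H₃`
  have hfr : Finite (MonoidHom.toHomUnits l').range := by
    have h1 : ((MonoidHom.toHomUnits l').range : Set ℂˣ) ⊆ (rootsOfUnity n ℂ : Set ℂˣ) := by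
      rintro _ ⟨g, rfl⟩
      rw [SetLike.mem_coe, mem_rootsOfUnity]
      ext
      rw [Units.val_pow_eq_pow_val, MonoidHom.coe_toHomUnits, hln g, Units.val_one]
    have : NeZero n := ⟨hn⟩
    have h0 : Finite (rootsOfUnity n ℂ) := inferInstance
    have h2 : (rootsOfUnity n ℂ : Set ℂˣ).Finite := Set.finite_coe_iff.1 h0
    exact (h2.subset h1).to_subtype
  have hkfi : (MonoidHom.toHomUnits l').ker.FiniteIndex := Subgroup.finiteIndex_ker _
  set H₃ : Subgroup G := (MonoidHom.toHomUnits l').ker.map H₂.subtype with hH₃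
  have hH₃fi : H₃.FiniteIndex := map_finiteIndex hH₂fi hkfi
  have hH₃H : H₃ ≤ H := by
    rintro x ⟨y, _, rfl⟩
    exact hH₂H y.2
  have hDH₃ : D ≤ H₃ := by
    intro d hd
    refine ⟨⟨d, hDH₂ hd⟩, ?_, rfl⟩
    rw [SetLike.mem_coe, MonoidHom.mem_ker]
    ext
    rw [MonoidHom.coe_toHomUnits, Units.val_one]
    exact hlD _ hd
  have hw₃ : Wit H₃ D := hw.mono hH₃fi hH₃H hDH₃
  obtain ⟨χ, hχ0, hχ⟩ := hintg D v.1 hfgD (fun h => hy (by rw [h]; rfl))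
  obtain ⟨hPfg, hPw⟩ := wit_ker hfgz hG.fg hm hw₃ hDfg hDalb χ hχ0 (by
    rintro h ⟨g, hg, rfl⟩ d hd
    apply hχ
    have h1 := key g d hd
    have h2 : l' g = 1 := by
      rw [SetLike.mem_coe, MonoidHom.mem_ker] at hg
      have := congrArg Units.val hg
      rwa [MonoidHom.coe_toHomUnits, Units.val_one] at this
    rw [h2, one_mul] at h1
    exact h1)
  obtain ⟨t, ht, _⟩ := exists_gen χ hχ0
  refine ⟨H₃, (kz χ).map D.subtype, t, hH₃H, hw₃, hPw, hPfg, ?_, t.2, ?_⟩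
  · rintro x ⟨y, _, rfl⟩
    exact y.2
  · rintro n hn0 ⟨y, hy, hyt⟩
    have h1 : y = t ^ n := Subtype.ext hyt
    have h2 : χ (Additive.ofMul (t ^ n)) = 0 := h1 ▸ hy
    rw [ofMul_pow, map_nsmul, nsmul_eq_mul] at h2
    rcases mul_eq_zero.1 h2 with h3 | h3
    · exact hn0 (by exact_mod_cast h3)
    · exact ht h3

end Pool.Agent.K6.H86.QS
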