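import Pool.Agent.N991.QS.Fin

/-!
# Project QS2 (helper86): quotients of fundamental groups of special varieties. Statements.
-/

set_option autoImplicit false

namespace Pool.Agent.K6.H86.QS

open Pool.Agent.N212.SG Pool.Agent.N991.QS

/-- No subgroup of finite index of `K` has a nonzero homomorphism to `ℂ`; for a finitely generated
group `K`: all subgroups of finite index have finite abelianization. -/
def FAb (K : Type) [Group K] : Prop :=
  ∀ L : Subgroup K, L.FiniteIndex → ∀ f : H1 L, f = 0

/-- The group `Q` is tame if every infinite finitely generated subgroup `S` of `Q` has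
* a subgroup of finite index with a nonzero homomorphism to `ℂ` (that is, with infinite
  abelianization), or
* an infinite image under a finite-dimensional complex representation of a subgroup `Q'` of finite
  index of `Q` (more precisely, `S ∩ Q'` has an infinite image). -/
def Tame (Q : Type) [Group Q] : Prop :=
  ∀ S : Subgroup Q, S.FG → Infinite S →
    (∃ L : Subgroup S, L.FiniteIndex ∧ ∃ f : H1 L, f ≠ 0) ∨
    ∃ Q' : Subgroup Q, Q'.FiniteIndex ∧ ∃ (n : ℕ) (ρ : Q' →* GL (Fin n) ℂ),
      Infinite ((S.subgroupOf Q').map ρ)

/-- The group has a subgroup of finite index which is nilpotent of class at most two. -/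
def VirtTwo (G : Type) [Group G] : Prop :=
  ∃ A : Subgroup G, A.FiniteIndex ∧ A.lowerCentralSeries 2 = ⊥

/-- What is used about the fundamental group `G` of a special or h-special smooth quasi-projective
variety `X`:
* the properties in `IsQuasiSpecialGroup` (finite generation; for all connected finite étale
  coverings `Y → X`, which are again special or h-special: the linear representations of `π₁(Y)`
  have virtually nilpotent images, the kernel of the map from `π₁(Y)` to its abelianization modulo
  torsion is finitely generated, and the first Betti number of `Y` is bounded);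
* if `H = π₁(Y)` is a subgroup of finite index of `G` and `N` is a subgroup of `H` which is
  normalized by `H`, with `H / N` nilpotent (`Wit H N`), then every element `x` of `γ₃(H)` has
  finite order in `H / N`; that is, the Malcev completion of `H` has nilpotency class at most two.

The last property follows from mixed Hodge theory. Let `𝔫` be the Lie algebra of the Malcev
completion of `H / N`; replacing `N` by a smaller subgroup one may assume that `N` is a term of the
lower central series of `H`. Then `𝔫` has a mixed Hodge structure with weights `≤ -1` (Morgan,
Hain), so `[𝔫, 𝔫]` has weights `≤ -2` and `[𝔫, [𝔫, 𝔫]]` has weights `≤ -3`. The quasi-Albanese map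
of `Y` is `π₁`-exact: the kernel of the map from `H` to its abelianization modulo torsion is the
image of `π₁(F)` for a general fibre `F`. So the image of the Malcev Lie algebra of `F` in `𝔫` is
`[𝔫, 𝔫]`, and the abelianization of `[𝔫, 𝔫]` is a quotient of `H₁(F)` and has weights `≥ -2`. Hence
`[𝔫, [𝔫, 𝔫]]` maps to `0` in this abelianization, i.e. is contained in `[[𝔫, 𝔫], [𝔫, 𝔫]]`, the
fourth term of the lower central series, and `[𝔫, [𝔫, 𝔫]] = 0`. -/
structure IsSpecialTypeGroup (G : Type) [Group G] : Prop where
  qs : IsQuasiSpecialGroup G
  nil : ∀ H N : Subgroup G, Wit H N → ∀ x ∈ H.lowerCentralSeries 2,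
    ∃ n : ℕ, n ≠ 0 ∧ x ^ n ∈ N

end Pool.Agent.K6.H86.QS
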